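import Mathlib
import Pool.Agent.N759.UC.IsoSeq
import Pool.Agent.N759.NV.Gen
import Pool.Agent.N759.WP.Final

/-! # Long powers in the bases of a sequence of orbits -/

open Filter Topology Matrix Polynomial

namespace Pool.Agent.N759.UC

open H715R2 Pool.Agent.N759.NV Pool.Agent.N759.WP

variable {d : ℕ}

/-- the limit at the centres of long periodic strips -/
theorem limit_seq {δ : ℝ} (hδ : 0 < δ)
    (D : (Fin 2 → ℤ) → Fin d → ℝ) (hD0 : ∀ z i, 0 < D z i)
    (hDadd : ∀ z w i, D (z + w) i = D z i * D w i) (hDprod : ∀ z, ∏ i, D z i = 1)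
    {C : ℝ} {S' : ℤ} (g : ℕ → Matrix (Fin d) (Fin d) ℝ) (hg : ∀ n, |(g n).det| = δ)
    (V : ℕ → (Fin 2 → ℤ) → (Matrix (Fin d) (Fin d) ℤ)ˣ)
    (hV : ∀ n z i k, |(diagonal (D z) * g n * zR ((V n z : Matrix (Fin d) (Fin d) ℤ))) i k| ≤ C)
    (hex : ∀ m : ℕ, ∃ n, m ≤ n ∧ ∃ z v : Fin 2 → ℤ, v ≠ 0 ∧ (∀ i, |v i| ≤ S') ∧
      ∀ j : ℕ, j ≤ m → V n (z + j • v) = V n z * ((V n z)⁻¹ * V n (z + v)) ^ j) :
    ∃ (U : (Matrix (Fin d) (Fin d) ℤ)ˣ) (v : Fin 2 → ℤ) (s : ℕ → ℕ)
      (x : ℕ → Matrix (Fin d) (Fin d) ℝ) (h : Matrix (Fin d) (Fin d) ℝ), v ≠ 0 ∧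
      (∀ i, i ≤ s i) ∧ (∀ i, x i ∈ Orb (g (s i))) ∧ Tendsto x atTop (𝓝 h) ∧
      ∀ (j : ℤ) (r : Fin d), rs (h * pw U j) r ≤ d * C * ((D v r)⁻¹) ^ j := by
  classical
  choose n hn z v hv hvS hpow using fun m : ℕ => hex (2 * (m + 1))
  set W : ℕ → (Matrix (Fin d) (Fin d) ℤ)ˣ := fun m => (V (n m) (z m))⁻¹ * V (n m) (z m + v m)
    with hW
  -- the finite set of translations
  have hfinv : ({v : Fin 2 → ℤ | ∀ i, v i ∈ Set.Icc (-S') S'}).Finite :=
    Set.Finite.pi' fun _ => Set.finite_Icc _ _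
  obtain ⟨E, hE⟩ : ∃ E : ℝ, ∀ v : Fin 2 → ℤ, (∀ i, |v i| ≤ S') → ∀ i, D (-v) i ≤ E := by
    obtain ⟨E, hE⟩ := (hfinv.image (fun v => ∑ i, D (-v) i)).bddAbove
    refine ⟨E, fun v hv i => ?_⟩
    have h1 : ∑ i, D (-v) i ≤ E := hE ⟨v, fun i => abs_le.1 (hv i), rfl⟩
    exact (Finset.single_le_sum (f := fun i => D (-v) i) (fun i _ => (hD0 _ i).le)
      (Finset.mem_univ i)).trans h1
  have hdetV : ∀ n z, |(zR ((V n z : Matrix (Fin d) (Fin d) ℤ))).det| = 1 := by
    intro n z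
    rw [det_zR]
    exact abs_det_of_isUnit ((Matrix.isUnit_iff_isUnit_det _).1 (V n z).isUnit)
  have hdetH : ∀ n z, |(diagonal (D z) * g n * zR ((V n z : Matrix (Fin d) (Fin d) ℤ))).det|
      = δ := by
    intro n z
    rw [det_mul, det_mul, det_diagonal, hDprod, one_mul, abs_mul, hdetV, mul_one, hg]
  -- the entries of `W`
  obtain ⟨B, hB⟩ : ∃ B : ℝ, ∀ m a b, |((((W m : (Matrix (Fin d) (Fin d) ℤ)ˣ) :
      Matrix (Fin d) (Fin d) ℤ) a b : ℤ) : ℝ)| ≤ B := by
    set Q : ℝ := δ⁻¹ * (d.factorial * (max C 1) ^ d) with hQ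
    refine ⟨∑ _j : Fin d, Q * E * C, fun m a b => ?_⟩
    set A := diagonal (D (z m)) * g (n m) * zR ((V (n m) (z m) : Matrix (Fin d) (Fin d) ℤ)) with hA
    set A' := diagonal (D (z m + v m)) * g (n m) *
      zR ((V (n m) (z m + v m) : Matrix (Fin d) (Fin d) ℤ)) with hA'
    have hAC : ∀ i k, |A i k| ≤ C := hV _ _
    have hA'C : ∀ i k, |A' i k| ≤ C := hV _ _
    have hAu : IsUnit A.det := by
      rw [isUnit_iff_ne_zero]
      intro h0
      have h1 := hdetH (n m) (z m)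
      rw [← hA, h0, abs_zero] at h1
      exact hδ.ne h1
    have hrel : diagonal (D (-(v m))) * A' = A * zR ((W m : Matrix (Fin d) (Fin d) ℤ)) := by
      have e1 : diagonal (D (-(v m))) * diagonal (D (z m + v m)) = diagonal (D (z m)) := by
        rw [diagonal_mul_diagonal]
        congr 1
        funext i
        rw [← hDadd]
        congr 1
        abel
      have e2 : ((V (n m) (z m) : Matrix (Fin d) (Fin d) ℤ)) * (W m : Matrix (Fin d) (Fin d) ℤ) =
          (V (n m) (z m + v m) : Matrix (Fin d) (Fin d) ℤ) := by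
        rw [← Units.val_mul, hW]
        simp only
        rw [mul_inv_cancel_left]
      rw [hA', hA, ← e2, zR_mul, ← Matrix.mul_assoc, ← Matrix.mul_assoc, ← Matrix.mul_assoc, e1]
    have hWeq : zR ((W m : Matrix (Fin d) (Fin d) ℤ)) = A⁻¹ * (diagonal (D (-(v m))) * A') := by
      rw [hrel, ← Matrix.mul_assoc, Matrix.nonsing_inv_mul _ hAu, Matrix.one_mul]
    have hval : ((((W m : (Matrix (Fin d) (Fin d) ℤ)ˣ) : Matrix (Fin d) (Fin d) ℤ) a b : ℤ) : ℝ) =
        (A⁻¹ * (diagonal (D (-(v m))) * A')) a b := by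
      rw [← hWeq]; rfl
    rw [hval, Matrix.mul_apply]
    refine (Finset.abs_sum_le_sum_abs _ _).trans (Finset.sum_le_sum fun j _ => ?_)
    rw [diagonal_mul, abs_mul, abs_mul, abs_of_pos (hD0 _ _), ← mul_assoc]
    have h1 : |A⁻¹ a j| ≤ Q := by
      have := inv_bound A hAC a j
      rw [hA, hdetH] at this
      exact this
    have hQ0 : 0 ≤ Q := (abs_nonneg _).trans h1
    have h2 := hE (v m) (hvS m) j
    have hE0 : 0 ≤ E := (hD0 _ _).le.trans h2
    exact mul_le_mul (mul_le_mul h1 h2 (hD0 _ _).le hQ0) (hA'C j b) (abs_nonneg _)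
      (mul_nonneg hQ0 hE0)
  -- one pair occurs infinitely often
  have hfinW : ({M : Fin d → Fin d → ℤ | ∀ i k, M i k ∈ Set.Icc (-⌈B⌉) ⌈B⌉}).Finite := by
    have h2 : ({v : Fin d → ℤ | ∀ k, v k ∈ Set.Icc (-⌈B⌉) ⌈B⌉}).Finite :=
      Set.Finite.pi' fun _ => Set.finite_Icc _ _
    exact Set.Finite.pi' fun _ => h2
  have hmemW : ∀ m, ((W m : Matrix (Fin d) (Fin d) ℤ) : Fin d → Fin d → ℤ) ∈
      {M : Fin d → Fin d → ℤ | ∀ i k, M i k ∈ Set.Icc (-⌈B⌉) ⌈B⌉} := by
    intro m i k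
    have h2 := abs_le.1 (hB m i k)
    have h3 := Int.le_ceil B
    constructor
    · have : ((-⌈B⌉ : ℤ) : ℝ) ≤ (((W m : Matrix (Fin d) (Fin d) ℤ) i k : ℤ) : ℝ) := by
        rw [Int.cast_neg]
        linarith [h2.1]
      exact_mod_cast this
    · have : (((W m : Matrix (Fin d) (Fin d) ℤ) i k : ℤ) : ℝ) ≤ ((⌈B⌉ : ℤ) : ℝ) := h2.2.trans h3
      exact_mod_cast this
  obtain ⟨p, hfreq⟩ : ∃ p : (Fin 2 → ℤ) × (Fin d → Fin d → ℤ),
      ∃ᶠ m in atTop, (v m, ((W m : Matrix (Fin d) (Fin d) ℤ) : Fin d → Fin d → ℤ)) = p := by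
    by_contra hcon
    push Not at hcon
    have h1 : ∀ᶠ m in atTop, ∀ p ∈ ({v : Fin 2 → ℤ | ∀ i, v i ∈ Set.Icc (-S') S'} ×ˢ
        {M : Fin d → Fin d → ℤ | ∀ i k, M i k ∈ Set.Icc (-⌈B⌉) ⌈B⌉}),
        (v m, ((W m : Matrix (Fin d) (Fin d) ℤ) : Fin d → Fin d → ℤ)) ≠ p := by
      rw [eventually_all_finite (hfinv.prod hfinW)]
      intro p _
      exact hcon p
    obtain ⟨m, hm⟩ := h1.exists
    exact hm _ ⟨fun i => abs_le.1 (hvS m i), hmemW m⟩ rfl
  obtain ⟨m₀, hm₀⟩ := hfreq.exists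
  have hsame : ∀ m, (v m, ((W m : Matrix (Fin d) (Fin d) ℤ) : Fin d → Fin d → ℤ)) = p →
      v m = v m₀ ∧ W m = W m₀ := by
    intro m hm
    rw [← hm₀] at hm
    exact ⟨congrArg Prod.fst hm, Units.ext (congrArg Prod.snd hm)⟩
  obtain ⟨φ, hφ, hφp⟩ := extraction_of_frequently_atTop hfreq
  set U := W m₀ with hU
  set w := v m₀ with hw
  have hstrip : ∀ i j : ℕ, j ≤ 2 * (φ i + 1) →
      V (n (φ i)) (z (φ i) + j • w) = V (n (φ i)) (z (φ i)) * U ^ j := by
    intro i j hj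
    obtain ⟨e1, e2⟩ := hsame _ (hφp i)
    have h1 := hpow (φ i) j hj
    rw [e1] at h1
    rw [h1, ← e2, hW]
    simp only
    rw [e1]
  -- the centres
  set y : ℕ → Matrix (Fin d) (Fin d) ℝ := fun i =>
    diagonal (D (z (φ i) + (φ i + 1) • w)) * g (n (φ i)) *
      zR ((V (n (φ i)) (z (φ i) + (φ i + 1) • w) : Matrix (Fin d) (Fin d) ℤ)) with hy
  obtain ⟨h, -, ψ, hψ, hlim⟩ := (isCompact_box (d := d) C).tendsto_subseq
    (x := y) (fun m => hV _ _)
  refine ⟨U, w, fun i => n (φ (ψ i)), fun i => y (ψ i), h, hv m₀, fun i => ?_, fun i => ?_, hlim,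
    fun j r => ?_⟩
  · have h1 := hn (φ (ψ i))
    have h2 := hφ.id_le (ψ i)
    have h3 := hψ.id_le i
    simp only [id] at h2 h3
    show i ≤ n (φ (ψ i))
    omega
  · exact ⟨_, _, fun i => hD0 _ i, hDprod _,
      (Matrix.isUnit_iff_isUnit_det _).1 (Units.isUnit _), rfl⟩
  · -- the bound
    have hDz : ∀ (j : ℤ) (r : Fin d), D (j • w) r = (D w r) ^ j := by
      intro j r
      have hzero : D 0 r = 1 := by
        have h1 := hDadd 0 0 r
        rw [add_zero] at h1
        have h2 := hD0 0 r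
        have h3 : D 0 r * (D 0 r - 1) = 0 := by linarith
        rcases mul_eq_zero.1 h3 with h4 | h4
        · exact absurd h4 h2.ne'
        · linarith
      have hne := (hD0 w r).ne'
      have hneg : D (-w) r = (D w r)⁻¹ := by
        have h1 := hDadd w (-w) r
        rw [add_neg_cancel, hzero] at h1
        exact eq_inv_of_mul_eq_one_right h1.symm
      induction j using Int.induction_on with
      | zero => rw [zero_smul, hzero, _root_.zpow_zero]
      | succ i ih => rw [add_smul, one_smul, hDadd, ih, zpow_add_one₀ hne]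
      | pred i ih => rw [sub_smul, one_smul, sub_eq_add_neg, hDadd, ih, hneg, zpow_sub_one₀ hne]
    have key : ∀ k, |D (j • w) r * (h * pw U j) r k| ≤ C := by
      intro k
      have hcont : Tendsto (fun i => |D (j • w) r * (y (ψ i) * pw U j) r k|) atTop
          (𝓝 |D (j • w) r * (h * pw U j) r k|) := by
        have h1 : Continuous (fun M : Matrix (Fin d) (Fin d) ℝ =>
            |D (j • w) r * (M * pw U j) r k|) := by
          refine continuous_abs.comp (continuous_const.mul ?_)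
          exact (continuous_apply_apply r k).comp (continuous_id.matrix_mul continuous_const)
        exact (h1.tendsto h).comp hlim
      refine le_of_tendsto hcont ?_
      filter_upwards [eventually_ge_atTop j.natAbs] with i hi
      have h2 := hφ.id_le (ψ i)
      have h3 := hψ.id_le i
      simp only [id] at h2 h3
      set q := φ (ψ i) with hq
      obtain ⟨t, ht⟩ : ∃ t : ℕ, (t : ℤ) = (q + 1 : ℕ) + j := by
        refine ⟨((q + 1 : ℕ) + j).toNat, Int.toNat_of_nonneg ?_⟩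
        omega
      have ht2 : t ≤ 2 * (q + 1) := by omega
      have e1 := hstrip (ψ i) t ht2
      have e2 := hstrip (ψ i) (q + 1) (by omega)
      rw [← hq] at e1 e2
      have hmul : V (n q) (z q + (q + 1) • w) * U ^ j = V (n q) (z q + t • w) := by
        rw [e1, e2, mul_assoc, ← _root_.zpow_natCast U (q + 1), ← _root_.zpow_add, ← ht,
          _root_.zpow_natCast]
      have hpos : z q + t • w = (z q + (q + 1) • w) + j • w := by
        have h4 : t • w = (q + 1) • w + j • w := by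
          rw [← natCast_zsmul w t, ht, add_smul, natCast_zsmul]
        rw [h4, add_assoc]
      have hmat : D (j • w) r * (y (ψ i) * pw U j) r k =
          (diagonal (D (z q + t • w)) * g (n q) *
            zR ((V (n q) (z q + t • w) : Matrix (Fin d) (Fin d) ℤ))) r k := by
        rw [← hmul, Units.val_mul, zR_mul, hpos]
        simp only [hy, ← hq, pw, Matrix.mul_assoc, diagonal_mul, hDadd (z q + (q + 1) • w)]
        ring
      rw [hmat]
      exact hV _ _ _ _
    have hpos : 0 < D (j • w) r := hD0 _ _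
    have h1 : D (j • w) r * rs (h * pw U j) r ≤ d * C := by
      unfold rs
      rw [Finset.mul_sum]
      calc ∑ k, D (j • w) r * |(h * pw U j) r k| = ∑ k, |D (j • w) r * (h * pw U j) r k| :=
            Finset.sum_congr rfl fun k _ => by rw [abs_mul, abs_of_pos hpos]
        _ ≤ ∑ _k : Fin d, C := Finset.sum_le_sum fun k _ => key k
        _ = d * C := by rw [Finset.sum_const, Finset.card_univ, Fintype.card_fin, nsmul_eq_mul]
    rw [_root_.inv_zpow, ← hDz, ← div_eq_mul_inv, le_div_iff₀ hpos]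
    linarith
end Pool.Agent.N759.UC
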