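import Mathlib
import Pool.Agent.N759.UC.Core

/-! # Long powers in the bases of a sequence of orbits: the limit is a norm form -/

open Filter Topology Matrix Polynomial

namespace Pool.Agent.N759.UC

open H715R2 Pool.Agent.N759.NV Pool.Agent.N759.WP

variable {d : ℕ}

/-- `g` is obtained from `g'` by a diagonal matrix of determinant `±1` and a change of basis -/
def Eqv (g g' : Matrix (Fin d) (Fin d) ℝ) : Prop :=
  ∃ (c : Fin d → ℝ) (γ : Matrix (Fin d) (Fin d) ℤ), |∏ i, c i| = 1 ∧ |γ.det| = 1 ∧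
    g = diagonal c * g' * zR γ

lemma eqv_of_orb {g g' x x' g₀ : Matrix (Fin d) (Fin d) ℝ} (hg : |g.det| = |g'.det|)
    (hdet : g.det ≠ 0) (hx : x ∈ Orb g) (hx' : x' ∈ Orb g') {e e' : Fin d → ℝ}
    (he : x = diagonal e * g₀) (he' : x' = diagonal e' * g₀) : Eqv g g' := by
  have hdx := abs_det_orb hx
  have hdx' := abs_det_orb hx'
  have h1 : |∏ i, e i| * |g₀.det| = |g.det| := by
    rw [← hdx, he, det_mul, det_diagonal, abs_mul]
  have h2 : |∏ i, e' i| * |g₀.det| = |g.det| := by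
    rw [hg, ← hdx', he', det_mul, det_diagonal, abs_mul]
  have hg0 : |g₀.det| ≠ 0 := by
    intro h0
    rw [h0, mul_zero] at h1
    exact hdet (abs_eq_zero.1 h1.symm)
  have he'0 : ∀ i, e' i ≠ 0 := by
    intro i h0
    rw [Finset.prod_eq_zero (Finset.mem_univ i) h0, abs_zero, zero_mul] at h2
    exact hdet (abs_eq_zero.1 h2.symm)
  have hprod : |∏ i, e i| = |∏ i, e' i| := mul_right_cancel₀ hg0 (h1.trans h2.symm)
  have hprod0 : |∏ i, e' i| ≠ 0 := by
    rw [abs_ne_zero]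
    exact Finset.prod_ne_zero_iff.2 fun i _ => he'0 i
  obtain ⟨a, γ, ha0, ha, hγ, hxe⟩ := hx
  obtain ⟨a', γ', ha'0, ha', hγ', hxe'⟩ := hx'
  refine ⟨fun i => (a i)⁻¹ * (e i * (e' i)⁻¹ * a' i), γ' * γ⁻¹, ?_, ?_, ?_⟩
  · rw [Finset.prod_mul_distrib, Finset.prod_mul_distrib, Finset.prod_mul_distrib,
      Finset.prod_inv_distrib, Finset.prod_inv_distrib, ha, ha', inv_one, one_mul, mul_one,
      abs_mul, abs_inv, hprod, mul_inv_cancel₀ hprod0]
  · rw [det_mul, abs_mul, Int.isUnit_iff_abs_eq.1 hγ', one_mul]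
    have h3 : IsUnit (γ⁻¹).det := by
      rw [Matrix.det_nonsing_inv]
      exact hγ.ringInverse
    exact Int.isUnit_iff_abs_eq.1 h3
  · have h3 : x = diagonal (fun i => e i * (e' i)⁻¹) * x' := by
      rw [he, he', ← Matrix.mul_assoc, diagonal_mul_diagonal]
      congr 2
      funext i
      rw [mul_assoc, inv_mul_cancel₀ (he'0 i), mul_one]
    have h4 : diagonal a * g = diagonal (fun i => e i * (e' i)⁻¹) * (diagonal a' * g' * zR γ') *
        zR γ⁻¹ := by
      rw [← hxe', ← h3, hxe, Matrix.mul_assoc, zR_inv hγ, Matrix.mul_one]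
    have h5 : g = diagonal (fun i => (a i)⁻¹) * (diagonal a * g) := by
      rw [← Matrix.mul_assoc, diagonal_mul_diagonal]
      have : (diagonal fun i => (a i)⁻¹ * a i) = (1 : Matrix (Fin d) (Fin d) ℝ) := by
        rw [← diagonal_one]
        congr 1
        funext i
        exact inv_mul_cancel₀ (ha0 i).ne'
      rw [this, Matrix.one_mul]
    rw [h5, h4, zR_mul]
    simp only [← Matrix.mul_assoc, diagonal_mul_diagonal]

/-- the rational matrix of a limit with the bounds of `limit_seq` is irreducible, and the orbit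
closure contains a matrix with an algebraic row -/
theorem exists_alg (hd : 3 ≤ d) {h : Matrix (Fin d) (Fin d) ℝ} (hdet : h.det ≠ 0)
    {ν : ℝ} (hν : 0 < ν) (hnu : HasNu h ν) (U : (Matrix (Fin d) (Fin d) ℤ)ˣ)
    (ρ : Fin d → ℝ) (hρ : ∀ i, 0 < ρ i) (hρ1 : ∏ i, ρ i = 1) {C : ℝ} (hC0 : 0 < C)
    (hC : ∀ (j : ℤ) (i : Fin d), rs (h * pw U j) i ≤ C * ρ i ^ j)
    {r : ℝ} (hr : Nat.Coprime (Finset.univ.filter fun i => ρ i = r).card d) :
    ∃ f : ℚ[X], ∃ _ : Fact (Irreducible f),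
      ∃ D : Dat (AdjoinRoot f) d, D.g ∈ closure (Orb h) := by
  classical
  have hd0 : 0 < d := by omega
  set S : Finset (Fin d) := Finset.univ.filter fun i => ρ i = r with hS
  have hS0 : 0 < S.card := by
    rcases Nat.eq_zero_or_pos S.card with h0 | h0
    · rw [h0, Nat.coprime_zero_left] at hr
      omega
    · exact h0
  have hSd : S.card < d := by
    have h1 : S.card ≤ d := by
      refine (Finset.card_filter_le _ _).trans ?_
      simp
    rcases h1.lt_or_eq with h2 | h2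
    · exact h2
    · rw [h2, Nat.coprime_self] at hr
      omega
  -- irreducibility
  obtain ⟨f, hmon, hirr, hdvd, x, hx, hfx⟩ := exists_factor hd0 (U : Matrix (Fin d) (Fin d) ℤ)
  obtain ⟨P, hP, W, hW⟩ := cyclic_lattice U f hmon hirr x hx hfx
  obtain ⟨b, hb⟩ := sub_card U h hdet hν hnu ρ hρ C hC0 hC hirr.natDegree_pos P hP W hW r
  have hdn : d ∣ f.natDegree := by
    have h1 : d ∣ S.card * f.natDegree := ⟨b, hb⟩
    exact (Nat.Coprime.symm hr).dvd_of_dvd_mul_left h1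
  have hcd : (mQ (U : Matrix (Fin d) (Fin d) ℤ)).charpoly.natDegree = d := by
    rw [charpoly_natDegree_eq_dim, Fintype.card_fin]
  have hfc : f = (mQ (U : Matrix (Fin d) (Fin d) ℤ)).charpoly := by
    refine (eq_of_monic_of_dvd_of_natDegree_le hmon (charpoly_monic _) hdvd ?_).symm
    rw [hcd]
    exact Nat.le_of_dvd hirr.natDegree_pos hdn
  rw [hfc] at hirr
  -- the invariant subspace
  have hhu : IsUnit h.det := isUnit_iff_ne_zero.2 hdet
  set M : Matrix (Fin d) (Fin d) ℝ := h * pw U 1 * h⁻¹ with hMdef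
  have hM : h * pw U 1 = M * h := by
    rw [hMdef, Matrix.mul_assoc (h * pw U 1), Matrix.nonsing_inv_mul _ hhu, Matrix.mul_one]
  set A : Matrix (Fin d) (Fin d) ℚ := mQ (U : Matrix (Fin d) (Fin d) ℤ) with hA
  have hinv : ∀ i ∈ S, ∃ c : Fin d → ℝ, ∀ j,
      ∑ k, h i k * (A k j : ℝ) = ∑ k ∈ S, c k * h k j := by
    refine fun i hi => ⟨M i, fun j => ?_⟩
    have h1 := congrFun (congrFun hM i) j
    rw [pw_one, Matrix.mul_apply, Matrix.mul_apply] at h1
    have h2 : ∑ k, h i k * ((mQ (U : Matrix (Fin d) (Fin d) ℤ) k j : ℚ) : ℝ)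
        = ∑ k, h i k * zR (U : Matrix (Fin d) (Fin d) ℤ) k j := by
      refine Finset.sum_congr rfl fun k _ => ?_
      simp [mQ, zR]
    rw [hA, h2, h1]
    symm
    refine Finset.sum_subset (Finset.subset_univ _) fun k _ hk => ?_
    have hρi : ρ i = r := (Finset.mem_filter.1 hi).2
    have hρk : ρ k ≠ ρ i := by
      intro h0
      apply hk
      rw [hS, Finset.mem_filter]
      exact ⟨Finset.mem_univ _, h0.trans hρi⟩
    rw [block_structure U h hdet ρ hρ hρ1 C hC0 hC M hM i k hρk, zero_mul]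
  have hfact : Fact (Irreducible A.charpoly) := ⟨hirr⟩
  have hprim' : ∀ B ∈ Algebra.adjoin ℚ {A}, (minpoly ℚ B).natDegree < d →
      ¬ d ∣ (minpoly ℚ B).natDegree * S.card := by
    intro B _ hlt hdvd
    have : Nonempty (Fin d) := ⟨⟨0, by omega⟩⟩
    have h1 : d ∣ (minpoly ℚ B).natDegree := (Nat.Coprime.symm hr).dvd_of_dvd_mul_right hdvd
    have h2 : 0 < (minpoly ℚ B).natDegree :=
      minpoly.natDegree_pos (Algebra.IsIntegral.isIntegral B)
    exact absurd (Nat.le_of_dvd h2 h1) (by omega)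
  obtain ⟨D, hD⟩ := Pool.Agent.R629.CSD.build A hd h hdet S hS0 hSd hinv hprim'
  obtain ⟨D', hD'⟩ := D.exists_dat hν (by rw [hD]; exact hnu)
  rw [hD] at hD'
  exact ⟨_, hfact, D', hD'⟩

/-- a limit of elements of the orbits of `g (s i)`, whose orbit closure contains a matrix with an
algebraic row -/
theorem iso_of_limit {δ ν : ℝ} (hδ : 0 < δ) (hν : 0 < ν)
    (g : ℕ → Matrix (Fin d) (Fin d) ℝ) (hg : ∀ n, |(g n).det| = δ) (hnu : ∀ n, HasNu (g n) ν)
    (s : ℕ → ℕ) (hs : ∀ i, i ≤ s i) (x : ℕ → Matrix (Fin d) (Fin d) ℝ)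
    (hx : ∀ i, x i ∈ Orb (g (s i))) {h : Matrix (Fin d) (Fin d) ℝ} (hlim : Tendsto x atTop (𝓝 h))
    (hh : ∃ f : ℚ[X], ∃ _ : Fact (Irreducible f),
      ∃ D : Dat (AdjoinRoot f) d, D.g ∈ closure (Orb h)) :
    ∃ s : ℕ → ℕ, (∀ i, i ≤ s i) ∧ (∀ i, PropInt (g (s i))) ∧ ∀ i j, Eqv (g (s i)) (g (s j)) := by
  classical
  have hgdet : ∀ n, (g n).det ≠ 0 := by
    intro n h0
    have := hg n
    rw [h0, abs_zero] at this
    exact hδ.ne this
  obtain ⟨f, hf, D', hD'⟩ := hh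
  -- a sequence tending to the matrix with an algebraic row
  obtain ⟨b, hb⟩ := (𝓝 D'.g).exists_antitone_basis
  have hy : ∀ i : ℕ, ∃ k : ℕ, i ≤ k ∧ ∃ y, y ∈ Orb (g (s k)) ∧ y ∈ b i := by
    intro i
    have hbi : interior (b i) ∈ 𝓝 D'.g := interior_mem_nhds.2 (hb.1.mem_of_mem trivial)
    obtain ⟨_, hyb, a, γ, ha0, ha, hγ, rfl⟩ := mem_closure_iff_nhds.1 hD' _ hbi
    have hcont : Continuous (fun M : Matrix (Fin d) (Fin d) ℝ => diagonal a * M * zR γ) :=
      (continuous_const.matrix_mul continuous_id).matrix_mul continuous_const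
    have h1 := (hcont.tendsto h).comp hlim
    have h2 := h1.eventually (isOpen_interior.mem_nhds hyb)
    obtain ⟨k, hk, hik⟩ := (h2.and (eventually_ge_atTop i)).exists
    exact ⟨k, hik, _, orb_mul (hx k) ha0 ha hγ, interior_subset hk⟩
  choose k hk y hyo hyb using hy
  have hylim : Tendsto y atTop (𝓝 D'.g) := hb.tendsto hyb
  have hiso := isolation_seq D' hν (fun i => g (s (k i))) (fun i => hgdet _) (fun i => hnu _) y
    hyo hylim
  obtain ⟨N, hN⟩ := eventually_atTop.1 hiso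
  refine ⟨fun i => s (k (i + N)), fun i => ?_, fun i => (hN (i + N) (by omega)).1, fun i j => ?_⟩
  · have h1 := hs (k (i + N))
    have h2 := hk (i + N)
    show i ≤ s (k (i + N))
    omega
  · obtain ⟨-, e, he⟩ := hN (i + N) (by omega)
    obtain ⟨-, e', he'⟩ := hN (j + N) (by omega)
    exact eqv_of_orb (by rw [hg, hg]) (hgdet _) (hyo _) (hyo _) he he'

/-- **Main theorem on sequences.** -/
theorem seq_main (hd : 3 ≤ d) {δ ν : ℝ} (hδ : 0 < δ) (hν : 0 < ν)
    (D : (Fin 2 → ℤ) → Fin d → ℝ) (hD0 : ∀ z i, 0 < D z i)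
    (hDadd : ∀ z w i, D (z + w) i = D z i * D w i) (hDprod : ∀ z, ∏ i, D z i = 1)
    (hcop : ∀ z : Fin 2 → ℤ, z ≠ 0 →
      ∃ r : ℝ, Nat.Coprime (Finset.univ.filter fun i => D z i = r).card d)
    {C : ℝ} {S' : ℤ} (g : ℕ → Matrix (Fin d) (Fin d) ℝ) (hg : ∀ n, |(g n).det| = δ)
    (hnu : ∀ n, HasNu (g n) ν)
    (V : ℕ → (Fin 2 → ℤ) → (Matrix (Fin d) (Fin d) ℤ)ˣ)
    (hV : ∀ n z i k, |(diagonal (D z) * g n * zR ((V n z : Matrix (Fin d) (Fin d) ℤ))) i k| ≤ C)
    (hex : ∀ m : ℕ, ∃ n, m ≤ n ∧ ∃ z v : Fin 2 → ℤ, v ≠ 0 ∧ (∀ i, |v i| ≤ S') ∧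
      ∀ j : ℕ, j ≤ m → V n (z + j • v) = V n z * ((V n z)⁻¹ * V n (z + v)) ^ j) :
    ∃ s : ℕ → ℕ, (∀ i, i ≤ s i) ∧ (∀ i, PropInt (g (s i))) ∧ ∀ i j, Eqv (g (s i)) (g (s j)) := by
  classical
  obtain ⟨U, v, s, x, h, hv, hs, hx, hlim, hbd⟩ := limit_seq hδ D hD0 hDadd hDprod g hg V hV hex
  have hnuh : HasNu h ν := hasNu_tendsto (fun n => hasNu_orb (hnu _) (hx n)) hlim
  have hdeth : |h.det| = δ := by
    have h1 := ((continuous_det'.tendsto h).comp hlim).abs
    refine (tendsto_nhds_unique (h1.congr fun n => ?_) tendsto_const_nhds)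
    show |(x n).det| = δ
    rw [abs_det_orb (hx n), hg]
  have hdet : h.det ≠ 0 := by
    intro h0
    rw [h0, abs_zero] at hdeth
    exact hδ.ne hdeth
  -- the rates
  obtain ⟨r₀, hr₀⟩ := hcop v hv
  have hr₀' : Nat.Coprime (Finset.univ.filter fun i => (D v i)⁻¹ = r₀⁻¹).card d := by
    have : (Finset.univ.filter fun i => (D v i)⁻¹ = r₀⁻¹)
        = Finset.univ.filter fun i => D v i = r₀ := by
      refine Finset.filter_congr fun i _ => ?_
      exact inv_inj
    rwa [this]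
  have hC1 : 0 < (d : ℝ) * (max C 1) := by
    have : (0 : ℝ) < d := by exact_mod_cast (by omega : 0 < d)
    have := lt_max_of_lt_right (a := (0 : ℝ)) (b := C) (one_pos (α := ℝ))
    positivity
  exact iso_of_limit hδ hν g hg hnu s hs x hx hlim
    (exists_alg hd hdet hν hnuh U (fun i => (D v i)⁻¹)
      (fun i => inv_pos.2 (hD0 v i)) (by rw [Finset.prod_inv_distrib, hDprod, inv_one]) hC1
      (fun j i => (hbd j i).trans (by
        refine mul_le_mul_of_nonneg_right ?_ (zpow_nonneg (inv_pos.2 (hD0 v i)).le _)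
        exact mul_le_mul_of_nonneg_left (le_max_left _ _) (Nat.cast_nonneg _))) hr₀')

end Pool.Agent.N759.UC
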