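import Mathlib
import Pool.Agent.N759.UC.Main
import Pool.Agent.H715R2.CountableValues
import Pool.Agent.H905R2.OppD

/-! # Sequences of systems with few small values -/

open Filter Topology Matrix Polynomial

namespace Pool.Agent.N759.UC

open H715R2 Pool.Agent.N759.WP

variable {d : ℕ}

/-- a system whose form is proportional to an integral form has a matrix with an algebraic row in
the closure of its orbit -/
theorem exists_alg_of_propInt (hd : 3 ≤ d) {h : Matrix (Fin d) (Fin d) ℝ} (hdet : h.det ≠ 0)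
    {ν : ℝ} (hν : 0 < ν) (hnu : HasNu h ν) (hP : PropInt h) :
    ∃ f : ℚ[X], ∃ _ : Fact (Irreducible f),
      ∃ D : Dat (AdjoinRoot f) d, D.g ∈ closure (Orb h) := by
  classical
  obtain ⟨A, -, hirr, -, hinv⟩ := Pool.Agent.H905R2.Opp.oppA h (by omega) hdet hP (by
    intro p hp h0
    have h2 := hnu p hp
    rw [h0, abs_zero] at h2
    exact absurd h2 (not_le.2 hν))
  have hu : IsUnit h.det := isUnit_iff_ne_zero.2 hdet
  have hgg : h * h⁻¹ = 1 := Matrix.mul_nonsing_inv _ hu
  have hgg' : h⁻¹ * h = 1 := Matrix.nonsing_inv_mul _ hu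
  have hoff : ∀ i j, i ≠ j → (h * zR A * h⁻¹) i j = 0 := by
    intro i j hij
    have h1 : ∑ l, h i l * (h⁻¹ l j) = 0 := by
      have h2 := congrFun (congrFun hgg i) j
      rw [Matrix.mul_apply, Matrix.one_apply_ne hij] at h2
      exact h2
    have h2 := hinv i (fun l => h⁻¹ l j) h1
    rw [Matrix.mul_assoc, Matrix.mul_apply]
    exact h2
  have hD : h * zR A * h⁻¹ = diagonal (fun i => (h * zR A * h⁻¹) i i) := by
    ext i j
    by_cases hij : i = j
    · subst hij; simp
    · rw [Matrix.diagonal_apply_ne _ hij, hoff i j hij]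
  set lam : Fin d → ℝ := fun i => (h * zR A * h⁻¹) i i with hlam
  have heq : h * zR A = diagonal lam * h := by
    rw [← hD, Matrix.mul_assoc, hgg', Matrix.mul_one]
  set B : Matrix (Fin d) (Fin d) ℚ := A.map (Int.castRingHom ℚ) with hB
  have hBirr : Irreducible B.charpoly := by
    rw [hB, Matrix.charpoly_map]
    exact hirr
  have hfact : Fact (Irreducible B.charpoly) := ⟨hBirr⟩
  set i₀ : Fin d := ⟨0, by omega⟩ with hi₀
  obtain ⟨D, hDh⟩ := Pool.Agent.R629.CSD.build B hd h hdet {i₀} (by simp) (by simp; omega)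
    (by
      intro i hi
      rw [Finset.mem_singleton] at hi
      subst hi
      refine ⟨lam, fun j => ?_⟩
      rw [Finset.sum_singleton]
      have h1 := congrFun (congrFun heq i₀) j
      rw [Matrix.mul_apply, diagonal_mul] at h1
      rw [← h1]
      refine Finset.sum_congr rfl fun k _ => ?_
      simp [hB, zR])
    (by
      intro C _ hlt hdvd
      have : Nonempty (Fin d) := ⟨i₀⟩
      rw [Finset.card_singleton, mul_one] at hdvd
      have h2 : 0 < (minpoly ℚ C).natDegree :=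
        minpoly.natDegree_pos (Algebra.IsIntegral.isIntegral C)
      exact absurd (Nat.le_of_dvd h2 hdvd) (by omega))
  obtain ⟨D', hD'⟩ := D.exists_dat hν (by rw [hDh]; exact hnu)
  rw [hDh] at hD'
  exact ⟨_, hfact, D', hD'⟩

/-- there are `K` nonzero integer points, whose images under `diagonal a * g` have coordinates at
most `N`, at which the absolute values of the product are at most `T - ε` and differ by at least
`ε` -/
def Many (g : Matrix (Fin d) (Fin d) ℝ) (a : Fin d → ℝ) (K : ℕ) (T N ε : ℝ) : Prop :=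
  ∃ p : Fin K → Fin d → ℤ, (∀ j, p j ≠ 0) ∧ (∀ j i, |a i * (g *ᵥ iR (p j)) i| ≤ N) ∧
    (∀ j, |FF g (iR (p j))| ≤ T - ε) ∧
    ∀ j j', j ≠ j' → ε ≤ abs (abs (FF g (iR (p j))) - abs (FF g (iR (p j'))))

/-- **Sequences of systems with few small values.** -/
theorem values_seq (hd : 3 ≤ d) {δ ν T : ℝ} (hδ : 0 < δ) (hν : 0 < ν)
    (hT : (d.factorial : ℝ) * δ < (d : ℝ) ^ d * T ∨
      ∀ h : Matrix (Fin d) (Fin d) ℝ, |h.det| = δ →
        ∃ m : Fin d → ℤ, m ≠ 0 ∧ |FF h (iR m)| < T) (K : ℕ)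
    (g : ℕ → Matrix (Fin d) (Fin d) ℝ) (hg : ∀ n, |(g n).det| = δ) (hnu : ∀ n, HasNu (g n) ν)
    (N : ℕ → ℕ) (hN : ∀ n, n ≤ N n) (a : ℕ → Fin d → ℝ) (ha0 : ∀ n i, 0 < a n i)
    (ha1 : ∀ n, ∏ i, a n i = 1)
    (hfew : ∀ n, ¬ Many (g n) (a n) K T (N n) (1 / ((N n : ℝ) + 1))) :
    ∃ s : ℕ → ℕ, (∀ i, i ≤ s i) ∧ (∀ i, PropInt (g (s i))) ∧ ∀ i j, Eqv (g (s i)) (g (s j)) := by
  classical
  have hd0 : 0 < d := by omega
  obtain ⟨R, hR⟩ := exists_bound hd0 δ ν hδ hν
  have hex : ∀ n, ∃ γ : Matrix (Fin d) (Fin d) ℤ, IsUnit γ.det ∧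
      ∀ i j, |(diagonal (a n) * g n * zR γ) i j| ≤ R := by
    intro n
    refine hR (diagonal (a n) * g n) (by
      rw [Matrix.det_mul, Matrix.det_diagonal, ha1, one_mul]; exact hg n) fun x hx => ?_
    rw [FF_diag_mul, ha1, one_mul]
    exact hnu n x hx
  choose γ hγ hγR using hex
  obtain ⟨h, -, φ, hφ, hlim⟩ := (isCompact_box (d := d) R).tendsto_subseq
    (x := fun n => diagonal (a n) * g n * zR (γ n)) hγR
  have horb : ∀ n, diagonal (a n) * g n * zR (γ n) ∈ Orb (g n) :=
    fun n => ⟨a n, γ n, ha0 n, ha1 n, hγ n, rfl⟩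
  have hnuh : HasNu h ν := hasNu_tendsto (fun n => hasNu_orb (hnu _) (horb (φ n))) hlim
  have hdeth : |h.det| = δ := by
    have h1 := ((continuous_det'.tendsto h).comp hlim).abs
    refine (tendsto_nhds_unique (h1.congr fun n => ?_) tendsto_const_nhds)
    show |(diagonal (a (φ n)) * g (φ n) * zR (γ (φ n))).det| = δ
    rw [abs_det_orb (horb _), hg]
  have hdet : h.det ≠ 0 := by
    intro h0
    rw [h0, abs_zero] at hdeth
    exact hδ.ne hdeth
  have hP : PropInt h := by
    by_contra hP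
    -- the limit has infinitely many small values
    have hinf : ({t : ℝ | ∃ x : Fin d → ℤ, x ≠ 0 ∧ |FF h (iR x)| = t ∧ t < T}).Infinite := by
      intro hfin
      have hfin2 : ({t : ℝ | ∃ x : Fin d → ℤ, |FF h (iR x)| = t ∧ t < T}).Finite := by
        refine (hfin.union (Set.finite_singleton (|FF h (iR 0)|))).subset ?_
        rintro t ⟨x, hx, ht⟩
        by_cases hx0 : x = 0
        · right; rw [← hx, hx0]; rfl
        · left; exact ⟨x, hx0, hx, ht⟩
      have hC : (closure {t : ℝ | ∃ x : Fin d → ℤ, |FF h (iR x)| = t ∧ t < T}).Countable := by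
        rw [hfin2.isClosed.closure_eq]
        exact hfin2.countable
      rcases countable_abs_values hd hdet T (by rw [hdeth]; exact hT) hC with h1 | h1
      · exact hP h1
      · obtain ⟨x, hx, hx2⟩ := h1 ν hν
        exact absurd (hnuh x hx) (not_le.2 hx2)
    obtain ⟨E, hE, hEc⟩ := hinf.exists_subset_card_eq K
    have e : Fin K ≃ E := (Fintype.equivFinOfCardEq (by rw [Fintype.card_coe, hEc])).symm
    have hmem : ∀ j : Fin K, ∃ x : Fin d → ℤ, x ≠ 0 ∧ |FF h (iR x)| = (e j : ℝ) ∧ (e j : ℝ) < T :=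
      fun j => hE (e j).2
    choose q hq0 hqv hqT using hmem
    -- convergence of the values
    have hconv : ∀ j, Tendsto (fun n => |FF (diagonal (a (φ n)) * g (φ n) * zR (γ (φ n)))
        (iR (q j))|) atTop (𝓝 (e j : ℝ)) := by
      intro j
      rw [← hqv j]
      exact (((continuous_FF (iR (q j))).tendsto h).comp hlim).abs
    have hNlim : Tendsto (fun n => (N (φ n) : ℝ)) atTop atTop := by
      refine tendsto_natCast_atTop_atTop.comp (tendsto_atTop_mono (fun n => ?_) tendsto_id)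
      exact (hφ.id_le n).trans (hN (φ n))
    have hεlim : Tendsto (fun n => 1 / ((N (φ n) : ℝ) + 1)) atTop (𝓝 0) := by
      have h1 := tendsto_atTop_add_const_right atTop (1 : ℝ) hNlim
      simp only [one_div]
      exact h1.inv_tendsto_atTop
    have hev1 : ∀ᶠ n in atTop, ∀ j, |FF (diagonal (a (φ n)) * g (φ n) * zR (γ (φ n)))
        (iR (q j))| ≤ T - 1 / ((N (φ n) : ℝ) + 1) := by
      refine Filter.eventually_all.2 fun j => ?_
      have h1 : Tendsto (fun n => T - 1 / ((N (φ n) : ℝ) + 1)) atTop (𝓝 (T - 0)) :=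
        tendsto_const_nhds.sub hεlim
      rw [sub_zero] at h1
      exact ((hconv j).eventually_lt h1 (hqT j)).mono fun n hn => hn.le
    have hev2 : ∀ᶠ n in atTop, ∀ j j', j ≠ j' → 1 / ((N (φ n) : ℝ) + 1) ≤
        abs (abs (FF (diagonal (a (φ n)) * g (φ n) * zR (γ (φ n))) (iR (q j))) -
          abs (FF (diagonal (a (φ n)) * g (φ n) * zR (γ (φ n))) (iR (q j')))) := by
      refine Filter.eventually_all.2 fun j => Filter.eventually_all.2 fun j' => ?_
      by_cases hjj : j = j'
      · exact Eventually.of_forall fun n h => absurd hjj h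
      · have h1 := ((hconv j).sub (hconv j')).abs
        have h2 : (0 : ℝ) < |(e j : ℝ) - (e j' : ℝ)| := by
          rw [abs_pos, sub_ne_zero]
          intro h0
          exact hjj (e.injective (Subtype.ext h0))
        exact (hεlim.eventually_lt h1 h2).mono fun n hn _ => hn.le
    have hev3 : ∀ᶠ n in atTop, ∀ j i, |((diagonal (a (φ n)) * g (φ n) * zR (γ (φ n))) *ᵥ
        iR (q j)) i| ≤ (N (φ n) : ℝ) := by
      refine Filter.eventually_all.2 fun j => Filter.eventually_all.2 fun i => ?_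
      have h1 := hNlim.eventually_ge_atTop (∑ k, R * |iR (q j) k|)
      refine h1.mono fun n hn => le_trans ?_ hn
      rw [mulVec, dotProduct]
      refine (Finset.abs_sum_le_sum_abs _ _).trans (Finset.sum_le_sum fun k _ => ?_)
      rw [abs_mul]
      exact mul_le_mul_of_nonneg_right (hγR _ _ _) (abs_nonneg _)
    obtain ⟨n, hn1, hn2, hn3⟩ := (hev1.and (hev2.and hev3)).exists
    apply hfew (φ n)
    have hFF : ∀ j, FF (diagonal (a (φ n)) * g (φ n) * zR (γ (φ n))) (iR (q j)) =
        FF (g (φ n)) (iR (γ (φ n) *ᵥ q j)) := fun j => FF_orb (ha1 _) _ _ _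
    refine ⟨fun j => γ (φ n) *ᵥ q j, fun j h0 => ?_, fun j i => ?_, fun j => ?_, fun j j' hjj => ?_⟩
    · apply hq0 j
      have h0' : γ (φ n) *ᵥ q j = 0 := h0
      have h3 : (γ (φ n))⁻¹ *ᵥ ((γ (φ n)) *ᵥ q j) = 0 := by rw [h0', mulVec_zero]
      rwa [mulVec_mulVec, Matrix.nonsing_inv_mul _ (hγ _), one_mulVec] at h3
    · have h1 := hn3 j i
      rw [← mulVec_mulVec, zR_mulVec_iR, ← mulVec_mulVec, mulVec_diagonal] at h1
      exact h1
    · rw [← hFF]; exact hn1 j
    · rw [← hFF, ← hFF]; exact hn2 j j' hjj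
  exact iso_of_limit hδ hν g hg hnu φ (fun i => hφ.id_le i)
    (fun i => diagonal (a (φ i)) * g (φ i) * zR (γ (φ i))) (fun i => horb _) hlim
    (exists_alg_of_propInt hd hdet hν hnuh hP)

end Pool.Agent.N759.UC
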