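import Mathlib
import Pool.Agent.W777.FV.Main
import Pool.Agent.N759.UC.Values

/-! # Few small values: a bounded automorph and a bounded denominator -/

open Filter Topology Matrix H715R2

namespace Pool.Agent.N759.UC

open Pool.Agent.W777.FV

variable {d : ℕ}

/-- the pigeonhole step of `few_values`, with bounds for the eigenvalues of the automorph -/
theorem few_values_bound (hd : 2 ≤ d) {V ν T : ℝ} (hV : 0 < V) (hν : 0 < ν)
    (hT : ∀ h : Matrix (Fin d) (Fin d) ℝ, |h.det| = V →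
      ∃ m : Fin d → ℤ, m ≠ 0 ∧ |FF h (iR m)| < T) :
    ∃ κ : ℝ, 0 < κ ∧ ∃ C : ℝ, 0 < C ∧ ∀ g : Matrix (Fin d) (Fin d) ℝ, |g.det| = V → HasNu g ν →
      ∀ G : ℝ, (∀ i j, |g⁻¹ i j| ≤ G) → ∀ N : ℕ, C * (1 + G) ^ 2 ≤ N →
      ((VN g T N).ncard : ℝ) ^ (d ^ 2 - d + 1) < κ * Real.log N →
      ∃ (δ : Matrix (Fin d) (Fin d) ℤ) (c : Fin d → ℝ), Function.Injective c ∧
        g * zR δ = diagonal c * g ∧ IsUnit δ.det ∧ (∀ i, 0 < c i) ∧
        (∀ i, c i ≤ 3 * Real.sqrt N) ∧ ∀ i, (c i)⁻¹ ≤ 3 * Real.sqrt N := by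
  classical
  have hd0 : 0 < d := by omega
  set i₀ : Fin d := ⟨0, hd0⟩ with hi₀
  obtain ⟨Θ, hΘsum, hΘ⟩ := Pool.Agent.W777.FV.exists_dir hd (Real.log 9)
  obtain ⟨R, hR⟩ := exists_bound hd0 V ν hV hν
  obtain ⟨r, hr0, hvec⟩ := exists_vec_gen hd0 V ν T hV hν hT
  set R' : ℝ := max R 0 with hR'
  set 𝒦 : Set (Matrix (Fin d) (Fin d) ℝ) :=
    ({h | ∀ i j, |h i j| ≤ R'} ∩ {h | |h.det| = V}) ∩ {h | HasNu h ν} with h𝒦
  have hcpt : IsCompact 𝒦 := by
    refine ((isCompact_box R').inter_right ?_).inter_right (Pool.Agent.W777.FV.isClosed_hasNu ν)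
    exact isClosed_eq (continuous_abs.comp continuous_det') continuous_const
  have hloc : ∀ h₀ ∈ 𝒦, ∃ m : Fin d × Fin d → (Fin d → ℤ), ∃ W ∈ 𝓝 h₀,
      (∀ p, m p ≠ 0) ∧ (∀ h ∈ W, ∀ p, |FF h (iR (m p))| < T) ∧
      ∀ h ∈ W, ∀ h' ∈ W, (∀ p ∈ PP i₀, FF h (iR (m p)) = FF h' (iR (m p))) →
        ∃ a : Fin d → ℝ, (∀ i, 1 / 3 < a i ∧ a i < 3) ∧ h' = diagonal a * h := by
    intro h₀ hh₀
    have hdet : |h₀.det| = V := hh₀.1.2
    have hdet0 : h₀.det ≠ 0 := by
      intro h0
      rw [h0, abs_zero] at hdet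
      exact hV.ne hdet
    obtain ⟨m, hm, U, hU, hUd⟩ := determine2 i₀ (div_pos hν (pow_pos hr0 (d - 1))) hdet0 hr0
      (hvec h₀ hdet hh₀.2)
    have hev : ∀ᶠ h in 𝓝 h₀, ∀ p, |FF h (iR (m p))| < T := by
      refine Filter.eventually_all.2 fun p => ?_
      exact ((continuous_abs.comp (continuous_FF (iR (m p)))).tendsto h₀).eventually
        (gt_mem_nhds (hm p).2)
    refine ⟨m, U ∩ {h | ∀ p, |FF h (iR (m p))| < T}, Filter.inter_mem hU hev,
      fun p => (hm p).1, fun h hh => hh.2, fun h hh h' hh' => hUd h hh.1 h' hh'.1⟩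
  choose! m W hW hm0 hmT hWd using hloc
  obtain ⟨t, ht𝒦, htcov⟩ := hcpt.elim_nhds_subcover W hW
  -- bounds
  set M : ℝ := ∑ x ∈ t, ∑ p, ∑ j, |(m x p j : ℝ)| with hM
  have hM0 : 0 ≤ M := Finset.sum_nonneg fun _ _ => Finset.sum_nonneg fun _ _ =>
    Finset.sum_nonneg fun _ _ => abs_nonneg _
  have hMe : ∀ x ∈ t, ∀ p j, |(m x p j : ℝ)| ≤ M := by
    intro x hx p j
    refine (Finset.single_le_sum (f := fun j => |(m x p j : ℝ)|) (fun _ _ => abs_nonneg _)
      (Finset.mem_univ j)).trans ?_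
    refine (Finset.single_le_sum (f := fun p => ∑ j, |(m x p j : ℝ)|)
      (fun _ _ => Finset.sum_nonneg fun _ _ => abs_nonneg _) (Finset.mem_univ p)).trans ?_
    exact Finset.single_le_sum (f := fun x => ∑ p, ∑ j, |(m x p j : ℝ)|)
      (fun _ _ => Finset.sum_nonneg fun _ _ => Finset.sum_nonneg fun _ _ => abs_nonneg _) hx
  set B : ℝ := 1 + ∑ i, |Θ i| with hB
  have hB0 : 0 < B := by
    have : 0 ≤ ∑ i, |Θ i| := Finset.sum_nonneg fun _ _ => abs_nonneg _
    linarith
  have hBe : ∀ i, |Θ i| ≤ B := by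
    intro i
    have := Finset.single_le_sum (f := fun i => |Θ i|) (fun _ _ => abs_nonneg _)
      (Finset.mem_univ i)
    linarith
  set C₀ : ℝ := d ^ 2 * (R' * M) + 1 with hC₀
  have hR'0 : 0 ≤ R' := le_max_right _ _
  have hC₀0 : 0 < C₀ := by positivity
  refine ⟨1 / (2 * B * (t.card + 1)), by positivity, C₀ ^ 2 + 1, by positivity, ?_⟩
  intro g hgV hnu G hG N hN hlt
  have hG0 : 0 ≤ G := (abs_nonneg _).trans (hG i₀ i₀)
  have hg : g.det ≠ 0 := by
    intro h0
    rw [h0, abs_zero] at hgV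
    exact hV.ne hgV
  set C : ℝ := C₀ * (1 + G) with hCdef
  have hC0 : 0 < C := by positivity
  -- the points of the orbit
  set a : ℕ → Fin d → ℝ := fun n i => Real.exp (n * Θ i) with ha
  have ha0 : ∀ n i, 0 < a n i := fun n i => Real.exp_pos _
  have ha1 : ∀ n, ∏ i, a n i = 1 := by
    intro n
    simp only [ha]
    rw [← Real.exp_sum, ← Finset.mul_sum, hΘsum, mul_zero, Real.exp_zero]
  have hxn : ∀ n, ∃ γ : Matrix (Fin d) (Fin d) ℤ, IsUnit γ.det ∧
      diagonal (a n) * g * zR γ ∈ 𝒦 := by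
    intro n
    have h1 : diagonal (a n) * g ∈ Orb g := by
      refine ⟨a n, 1, ha0 n, ha1 n, by simp, ?_⟩
      rw [zR_one, Matrix.mul_one]
    obtain ⟨γ, hγ, hγR⟩ := hR _ ((abs_det_orb h1).trans hgV)
      (hasNu_closure hnu (subset_closure h1))
    have h2 : diagonal (a n) * g * zR γ ∈ Orb g := ⟨a n, γ, ha0 n, ha1 n, hγ, rfl⟩
    exact ⟨γ, hγ, ⟨fun i j => (hγR i j).trans (le_max_left _ _), (abs_det_orb h2).trans hgV⟩,
      hasNu_closure hnu (subset_closure h2)⟩
  choose γ hγ hγ𝒦 using hxn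
  set y : ℕ → Matrix (Fin d) (Fin d) ℝ := fun n => diagonal (a n) * g * zR (γ n) with hy
  have hxt : ∀ n, ∃ x ∈ t, y n ∈ W x := by
    intro n
    have := htcov (hγ𝒦 n)
    rw [Set.mem_iUnion₂] at this
    obtain ⟨x, hx, hx2⟩ := this
    exact ⟨x, hx, hx2⟩
  choose x hxt hxW using hxt
  have hval : ∀ n p, FF (y n) (iR (m (x n) p)) = FF g (iR (γ n *ᵥ m (x n) p)) :=
    fun n p => FF_orb (ha1 n) g (γ n) _
  have hbd : ∀ n p i, |((γ n *ᵥ m (x n) p) i : ℝ)| ≤ C * Real.exp (n * B) := by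
    intro n p i
    refine Pool.Agent.W777.FV.gamma_bound hg R' M hR'0 hM0 G hG (a n) (γ n) (m (x n) p) (Real.exp (n * B)) (ha0 n)
      (fun i => ?_) (hγ𝒦 n).1.1 (hMe _ (hxt n) p) i
    simp only [ha]
    rw [← Real.exp_neg, Real.exp_le_exp]
    have h1 := (abs_le.1 (hBe i)).1
    have h2 : (0 : ℝ) ≤ n := Nat.cast_nonneg n
    nlinarith
  have hne : ∀ n p, γ n *ᵥ m (x n) p ≠ 0 := by
    intro n p h0
    have h1 := hm0 _ (ht𝒦 _ (hxt n)) p
    apply h1
    have h2 : (γ n)⁻¹ *ᵥ (γ n *ᵥ m (x n) p) = m (x n) p := by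
      rw [mulVec_mulVec, Matrix.nonsing_inv_mul _ (hγ n), one_mulVec]
    rw [← h2, h0, mulVec_zero]
  -- the constants
  have hNR : C ^ 2 + 1 ≤ N := by
    have h1 : C ^ 2 + 1 ≤ (C₀ ^ 2 + 1) * (1 + G) ^ 2 := by
      rw [hCdef, mul_pow]
      nlinarith
    exact h1.trans hN
  have hN0 : (0 : ℝ) < N := by nlinarith [sq_nonneg C]
  have hlogN : 0 ≤ Real.log N := Real.log_nonneg (by nlinarith [sq_nonneg C])
  have hlogC : 2 * Real.log C ≤ Real.log N := by
    rw [show (2 : ℝ) * Real.log C = Real.log (C ^ 2) by rw [Real.log_pow]; norm_num]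
    exact Real.log_le_log (by positivity) (by linarith)
  set K : ℕ := ⌊Real.log N / (2 * B)⌋₊ with hK
  have hKN : ∀ n, n ≤ K → C * Real.exp (n * B) ≤ N := by
    intro n hn
    have h1 : (n : ℝ) ≤ Real.log N / (2 * B) :=
      le_trans (by exact_mod_cast hn) (Nat.floor_le (by positivity))
    rw [le_div_iff₀ (by positivity)] at h1
    calc C * Real.exp (n * B) = Real.exp (Real.log C) * Real.exp (n * B) := by
          rw [Real.exp_log hC0]
      _ = Real.exp (Real.log C + n * B) := (Real.exp_add _ _).symm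
      _ ≤ Real.exp (Real.log N) := by
          rw [Real.exp_le_exp]
          linarith
      _ = N := Real.exp_log hN0
  -- colours
  set VF : Finset ℝ := (finite_VN g T N).toFinset with hVF
  have hVcard : VF.card = (VN g T N).ncard := by
    rw [hVF, Set.ncard_eq_toFinset_card _ (finite_VN g T N)]
  set S : Finset (Matrix (Fin d) (Fin d) ℝ × (PP i₀ → ℝ)) :=
    t ×ˢ Fintype.piFinset (fun _ : PP i₀ => VF) with hS
  have hScard : S.card = t.card * VF.card ^ (d ^ 2 - d + 1) := by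
    rw [hS, Finset.card_product, Fintype.card_piFinset, Finset.prod_const, Finset.card_univ,
      Fintype.card_coe, card_PP]
  have hlt2 : S.card < (Finset.range (K + 1)).card := by
    rw [Finset.card_range, hScard, hVcard]
    have h1 : (t.card : ℝ) * ((VN g T N).ncard : ℝ) ^ (d ^ 2 - d + 1) < K + 1 := by
      have h2 : Real.log N / (2 * B) < K + 1 := Nat.lt_floor_add_one _
      refine lt_of_le_of_lt ?_ h2
      have h3 : (t.card : ℝ) * ((VN g T N).ncard : ℝ) ^ (d ^ 2 - d + 1) ≤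
          t.card * (1 / (2 * B * (t.card + 1)) * Real.log N) :=
        mul_le_mul_of_nonneg_left hlt.le (Nat.cast_nonneg _)
      refine h3.trans ?_
      have h4 : (t.card : ℝ) * (1 / (2 * B * (t.card + 1)) * Real.log N) =
          (t.card / (t.card + 1)) * (Real.log N / (2 * B)) := by
        field_simp
      rw [h4]
      refine mul_le_of_le_one_left (by positivity) ?_
      rw [div_le_one (by positivity)]
      linarith
    exact_mod_cast h1
  obtain ⟨n, hn, n', hn', hnn, hcol⟩ := Finset.exists_ne_map_eq_of_card_lt_of_maps_to hlt2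
    (f := fun n => (x n, fun p : PP i₀ => FF (y n) (iR (m (x n) p)))) (by
      intro n hn
      rw [Finset.mem_coe, hS, Finset.mem_product]
      refine ⟨hxt n, ?_⟩
      rw [Fintype.mem_piFinset]
      intro p
      simp only
      rw [hVF, Set.Finite.mem_toFinset]
      refine ⟨γ n *ᵥ m (x n) p, hne n p, fun i => ?_, (hval n p).symm, ?_⟩
      · have h1 := (hbd n p i).trans (hKN n (by
          have := Finset.mem_range.1 hn
          omega))
        exact_mod_cast h1
      · exact hmT _ (ht𝒦 _ (hxt n)) _ (hxW n) p)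
  rw [Prod.mk.injEq] at hcol
  obtain ⟨hxx, hcol⟩ := hcol
  obtain ⟨b, hb, hbe⟩ := hWd _ (ht𝒦 _ (hxt n)) (y n) (hxW n) (y n') (by rw [hxx]; exact hxW n')
    (fun p hp => by
      have h1 := congrFun hcol ⟨p, hp⟩
      simp only at h1
      rw [h1, hxx])
  -- the automorph
  have hnK : n ≤ K := by
    have := Finset.mem_range.1 hn
    omega
  have hnK' : n' ≤ K := by
    have := Finset.mem_range.1 hn'
    omega
  have hKB : (K : ℝ) * B ≤ Real.log N / 2 := by
    have h1 : (K : ℝ) ≤ Real.log N / (2 * B) := Nat.floor_le (by positivity)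
    calc (K : ℝ) * B ≤ Real.log N / (2 * B) * B := mul_le_mul_of_nonneg_right h1 hB0.le
      _ = Real.log N / 2 := by field_simp
  have hexpb : ∀ i, Real.exp (((n : ℝ) - n') * Θ i) ≤ Real.sqrt N ∧
      Real.exp (-(((n : ℝ) - n') * Θ i)) ≤ Real.sqrt N := by
    intro i
    have h1 : |((n : ℝ) - n') * Θ i| ≤ Real.log N / 2 := by
      rw [abs_mul]
      have h2 : |(n : ℝ) - n'| ≤ K := by
        rw [abs_le]
        have e1 : (n : ℝ) ≤ K := by exact_mod_cast hnK
        have e2 : (n' : ℝ) ≤ K := by exact_mod_cast hnK'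
        have e3 : (0 : ℝ) ≤ n := Nat.cast_nonneg n
        have e4 : (0 : ℝ) ≤ n' := Nat.cast_nonneg n'
        constructor <;> linarith
      exact (mul_le_mul h2 (hBe i) (abs_nonneg _) (Nat.cast_nonneg _)).trans hKB
    have h3 : Real.sqrt N = Real.exp (Real.log N / 2) := by
      rw [Real.sqrt_eq_rpow, Real.rpow_def_of_pos hN0]
      congr 1
      ring
    rw [h3, Real.exp_le_exp, Real.exp_le_exp]
    exact ⟨(abs_le.1 h1).2, by linarith [(abs_le.1 h1).1]⟩
  refine ⟨γ n' * (γ n)⁻¹, fun i => b i * Real.exp (((n : ℝ) - n') * Θ i), ?_, ?_, ?_, ?_, ?_, ?_⟩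
  rotate_left 2
  · rw [det_mul]
    refine (hγ n').mul ?_
    rw [Matrix.det_nonsing_inv]
    exact (hγ n).ringInverse
  · intro i
    have := (hb i).1
    exact mul_pos (by linarith) (Real.exp_pos _)
  · intro i
    have h1 := hb i
    exact mul_le_mul h1.2.le (hexpb i).1 (Real.exp_pos _).le (by norm_num)
  · intro i
    have h1 := hb i
    have h2 : (b i)⁻¹ ≤ 3 := by
      rw [inv_le_comm₀ (by linarith) (by norm_num)]
      linarith
    rw [mul_inv, ← Real.exp_neg]
    exact mul_le_mul h2 (hexpb i).2 (Real.exp_pos _).le (by norm_num)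
  · intro i j hij
    by_contra hne
    simp only at hij
    have hbi := hb i
    have hbj := hb j
    have hbi0 : 0 < b i := by linarith
    have hbj0 : 0 < b j := by linarith
    have h1 := congrArg Real.log hij
    rw [Real.log_mul hbi0.ne' (Real.exp_pos _).ne', Real.log_mul hbj0.ne' (Real.exp_pos _).ne',
      Real.log_exp, Real.log_exp] at h1
    have h2 : ((n : ℝ) - n') * (Θ i - Θ j) = Real.log (b j) - Real.log (b i) := by linarith
    have h3 : Real.log 9 ≤ |((n : ℝ) - n') * (Θ i - Θ j)| := by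
      rw [abs_mul]
      have h4 : 1 ≤ |(n : ℝ) - n'| := by
        have h5 : (1 : ℤ) ≤ |(n : ℤ) - n'| :=
          Int.one_le_abs (sub_ne_zero.2 (by exact_mod_cast hnn))
        exact_mod_cast h5
      have h6 := hΘ i j hne
      nlinarith [abs_nonneg (Θ i - Θ j)]
    rw [h2] at h3
    have hl3 : Real.log 9 = 2 * Real.log 3 := by
      rw [show (9 : ℝ) = 3 ^ 2 by norm_num, Real.log_pow]
      norm_num
    have hlb : ∀ z : ℝ, 1 / 3 < z → z < 3 → |Real.log z| < Real.log 3 := by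
      intro z hz1 hz2
      rw [abs_lt]
      constructor
      · rw [← Real.log_inv]
        exact Real.log_lt_log (by norm_num) (by rw [← one_div]; exact hz1)
      · exact Real.log_lt_log (by linarith) hz2
    have h7 := hlb _ hbi.1 hbi.2
    have h8 := hlb _ hbj.1 hbj.2
    have h9 := abs_sub (Real.log (b j)) (Real.log (b i))
    rw [hl3] at h3
    linarith
  · have h1 : diagonal (fun i => (a n' i)⁻¹) * diagonal (a n') =
        (1 : Matrix (Fin d) (Fin d) ℝ) := by
      rw [diagonal_mul_diagonal, ← diagonal_one]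
      congr 1
      funext i
      exact inv_mul_cancel₀ (ha0 n' i).ne'
    have h2 : g * zR (γ n') = diagonal (fun i => (a n' i)⁻¹) * (diagonal b * y n) := by
      rw [← hbe]
      simp only [hy]
      rw [Matrix.mul_assoc (diagonal (a n')), ← Matrix.mul_assoc, h1, Matrix.one_mul]
    rw [zR_mul, ← Matrix.mul_assoc, h2]
    simp only [hy]
    have h3 : diagonal (fun i => (a n' i)⁻¹) * (diagonal b * (diagonal (a n) * g * zR (γ n))) *
        zR (γ n)⁻¹ = (diagonal (fun i => (a n' i)⁻¹) * diagonal b * diagonal (a n)) * g *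
          (zR (γ n) * zR (γ n)⁻¹) := by
      simp only [Matrix.mul_assoc]
    rw [h3, zR_inv (hγ n), Matrix.mul_one, diagonal_mul_diagonal, diagonal_mul_diagonal]
    congr 2
    funext i
    simp only [ha]
    rw [← Real.exp_neg, mul_right_comm, ← Real.exp_add, mul_comm]
    congr 2
    ring


open Polynomial in
lemma vecMul_aeval (M : Matrix (Fin d) (Fin d) ℂ) (r : Fin d → ℂ) (c : ℂ) (h : r ᵥ* M = c • r)
    (p : ℂ[X]) : r ᵥ* (aeval M p) = p.eval c • r := by
  have hpow : ∀ n : ℕ, r ᵥ* (M ^ n) = c ^ n • r := by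
    intro n
    induction n with
    | zero => rw [pow_zero, vecMul_one, pow_zero, one_smul]
    | succ n ih => rw [pow_succ, ← vecMul_vecMul, ih, smul_vecMul, h, smul_smul, pow_succ]
  induction p using Polynomial.induction_on' with
  | add p q hp hq => rw [map_add, vecMul_add, hp, hq, eval_add, add_smul]
  | monomial n a =>
    rw [aeval_monomial, eval_monomial]
    have h1 : (algebraMap ℂ (Matrix (Fin d) (Fin d) ℂ)) a * M ^ n = a • M ^ n := by
      rw [Algebra.smul_def]
    rw [h1, vecMul_smul, hpow, smul_smul]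

open Polynomial Pool.Agent.N759.WP in
/-- an automorph with distinct eigenvalues has an irreducible characteristic polynomial -/
theorem automorph_irreducible (hd : 0 < d) {g : Matrix (Fin d) (Fin d) ℝ} {ν : ℝ} (hν : 0 < ν)
    (hnu : HasNu g ν) {δ : Matrix (Fin d) (Fin d) ℤ} {c : Fin d → ℝ} (hc : Function.Injective c)
    (h : g * zR δ = diagonal c * g) :
    Irreducible (δ.charpoly.map (Int.castRingHom ℚ)) := by
  classical
  obtain ⟨f, hmon, hirr, hdvd, x, hx, hfx⟩ := exists_factor hd δ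
  have hroot : ∀ i, (f.map (algebraMap ℚ ℂ)).eval ((c i : ℝ) : ℂ) = 0 := by
    intro i
    set r : Fin d → ℂ := fun k => ((g i k : ℝ) : ℂ) with hr
    have h1 : r ᵥ* mC δ = ((c i : ℝ) : ℂ) • r := by
      funext k
      have h2 := congrFun (congrFun h i) k
      rw [Matrix.mul_apply, diagonal_mul] at h2
      simp only [vecMul, dotProduct, Pi.smul_apply, smul_eq_mul, hr]
      rw [← Complex.ofReal_mul, ← h2]
      push_cast
      refine Finset.sum_congr rfl fun l _ => ?_
      simp [mC, zR]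
    have h3 := vecMul_aeval (mC δ) r _ h1 (f.map (algebraMap ℚ ℂ))
    have h4 : aeval (mC δ) (f.map (algebraMap ℚ ℂ)) *ᵥ (fun k => (x k : ℂ)) = 0 := by
      rw [aeval_mC]
      have h5 := cast_mulVec (aeval (mQ δ) f) (fun k => (x k : ℚ))
      rw [hfx] at h5
      have h6 : (fun i => (((fun k => (x k : ℚ)) i : ℚ) : ℂ)) = fun k => ((x k : ℤ) : ℂ) := by
        funext k
        push_cast
        rfl
      rw [h6] at h5
      rw [h5]
      funext k
      simp
    have h5 : r ⬝ᵥ (aeval (mC δ) (f.map (algebraMap ℚ ℂ)) *ᵥ (fun k => (x k : ℂ))) =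
        (f.map (algebraMap ℚ ℂ)).eval ((c i : ℝ) : ℂ) * (r ⬝ᵥ fun k => (x k : ℂ)) := by
      rw [dotProduct_mulVec, h3, smul_dotProduct, smul_eq_mul]
    rw [h4, dotProduct_zero] at h5
    rcases mul_eq_zero.1 h5.symm with h6 | h6
    · exact h6
    · exfalso
      have h7 : ∑ k, g i k * (x k : ℝ) = 0 := by
        have h8 : ((∑ k, g i k * (x k : ℝ) : ℝ) : ℂ) = 0 := by
          rw [← h6]
          push_cast
          rfl
        exact_mod_cast h8
      have h8 := hnu x hx
      have h9 : FF g (iR x) = 0 := Finset.prod_eq_zero (Finset.mem_univ i) h7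
      rw [h9, abs_zero] at h8
      exact absurd h8 (not_le.2 hν)
  have hf0 : f.map (algebraMap ℚ ℂ) ≠ 0 := (hmon.map _).ne_zero
  have hdeg : d ≤ f.natDegree := by
    have h1 : (Finset.univ.image fun i => ((c i : ℝ) : ℂ)) ⊆
        (f.map (algebraMap ℚ ℂ)).roots.toFinset := by
      intro z hz
      obtain ⟨i, -, rfl⟩ := Finset.mem_image.1 hz
      rw [Multiset.mem_toFinset, mem_roots hf0]
      exact hroot i
    have h2 := Finset.card_le_card h1
    rw [Finset.card_image_of_injective _ (fun i j hij => hc (by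
      exact_mod_cast (show ((c i : ℝ) : ℂ) = ((c j : ℝ) : ℂ) from hij))), Finset.card_univ,
      Fintype.card_fin] at h2
    have h3 := (Multiset.toFinset_card_le (f.map (algebraMap ℚ ℂ)).roots).trans
      (card_roots' (f.map (algebraMap ℚ ℂ)))
    rw [natDegree_map] at h3
    exact h2.trans h3
  have hcd : (mQ δ).charpoly.natDegree = d := by
    rw [charpoly_natDegree_eq_dim, Fintype.card_fin]
  have hfc : f = (mQ δ).charpoly := by
    refine (eq_of_monic_of_dvd_of_natDegree_le hmon (charpoly_monic _) hdvd ?_).symm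
    rw [hcd]
    exact hdeg
  rw [← Matrix.charpoly_map]
  have h1 : δ.map (Int.castRingHom ℚ) = mQ δ := rfl
  rw [h1, ← hfc]
  exact hirr

/-- the values of the form at the integer points are multiples of `det g / Vandermonde (c)` -/
theorem values_multiple {g : Matrix (Fin d) (Fin d) ℝ} {δ : Matrix (Fin d) (Fin d) ℤ}
    {c : Fin d → ℝ} (h : g * zR δ = diagonal c * g) (p : Fin d → ℤ) :
    FF g (iR p) * (Matrix.vandermonde c).det =
      g.det * ((Matrix.of fun i (s : Fin d) => ((δ ^ (s : ℕ)) *ᵥ p) i : Matrix _ _ ℤ).det : ℝ) := by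
  have hpow : ∀ s : ℕ, g * zR (δ ^ s) = diagonal (fun i => c i ^ s) * g := by
    intro s
    induction s with
    | zero => simp [zR_one]
    | succ s ih =>
      rw [pow_succ, zR_mul, ← Matrix.mul_assoc, ih, Matrix.mul_assoc, h, ← Matrix.mul_assoc,
        diagonal_mul_diagonal]
      congr 2
  have h1 : g * zR (Matrix.of fun i (s : Fin d) => ((δ ^ (s : ℕ)) *ᵥ p) i) =
      diagonal (fun i => (g *ᵥ iR p) i) * Matrix.vandermonde c := by
    ext i s
    rw [diagonal_mul, Matrix.vandermonde_apply]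
    have h2 : (g * zR (Matrix.of fun i (s : Fin d) => ((δ ^ (s : ℕ)) *ᵥ p) i)) i s
        = (g *ᵥ iR ((δ ^ (s : ℕ)) *ᵥ p)) i := by
      rw [Matrix.mul_apply, mulVec, dotProduct]
      rfl
    rw [h2, ← zR_mulVec_iR, mulVec_mulVec, hpow, ← mulVec_mulVec, mulVec_diagonal, mul_comm]
  have h2 := congrArg Matrix.det h1
  rw [det_mul, det_mul, det_zR, det_diagonal] at h2
  rw [h2]
  rfl

lemma vandermonde_bound {c : Fin d → ℝ} {B : ℝ} (hB : ∀ i, 0 < c i ∧ c i ≤ B) :
    |(Matrix.vandermonde c).det| ≤ B ^ (d * (d - 1) / 2) := by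
  rw [Matrix.det_vandermonde, Finset.abs_prod]
  rcases Nat.eq_zero_or_pos d with hd | hd
  · subst hd
    simp
  have hB0 : 0 < B := (hB ⟨0, hd⟩).1.trans_le (hB ⟨0, hd⟩).2
  have h1 : ∀ i : Fin d, |∏ j ∈ Finset.Ioi i, (c j - c i)| ≤ B ^ (d - 1 - (i : ℕ)) := by
    intro i
    rw [Finset.abs_prod, ← Fin.card_Ioi, ← Finset.prod_const]
    refine Finset.prod_le_prod (fun _ _ => abs_nonneg _) fun j _ => ?_
    rw [abs_le]
    constructor <;> linarith [(hB i).1, (hB i).2, (hB j).1, (hB j).2]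
  refine (Finset.prod_le_prod (fun _ _ => abs_nonneg _) fun i _ => h1 i).trans (le_of_eq ?_)
  rw [Finset.prod_pow_eq_pow_sum]
  congr 1
  rw [Fin.sum_univ_eq_sum_range (fun i => d - 1 - i) d, Finset.sum_range_reflect (fun i => i) d,
    Finset.sum_range_id]

/-- what an automorph with eigenvalues in `[exp (-x), exp x]` gives -/
def Small (g : Matrix (Fin d) (Fin d) ℝ) (x : ℝ) : Prop :=
  ∃ (A : Matrix (Fin d) (Fin d) ℤ) (c : Fin d → ℝ) (η : ℝ), A.det = 1 ∧
    Irreducible (A.charpoly.map (Int.castRingHom ℚ)) ∧ Function.Injective c ∧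
    (∀ i, Real.exp (-x) ≤ c i ∧ c i ≤ Real.exp x) ∧ g * zR A = diagonal c * g ∧
    Real.exp (-x) ≤ η ∧ ∀ p : Fin d → ℤ, ∃ z : ℤ, FF g (iR p) = η * z

/-- **Dichotomy.** -/
theorem dichotomy (hd : 3 ≤ d) {V ν T : ℝ} (hV : 0 < V) (hν : 0 < ν)
    (hT : (d.factorial : ℝ) * V < (d : ℝ) ^ d * T ∨
      ∀ h : Matrix (Fin d) (Fin d) ℝ, |h.det| = V →
        ∃ m : Fin d → ℤ, m ≠ 0 ∧ |FF h (iR m)| < T) :
    ∃ κ : ℝ, 0 < κ ∧ ∃ x₀ : ℝ, ∀ g : Matrix (Fin d) (Fin d) ℝ, |g.det| = V → HasNu g ν →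
      ∀ x : ℝ, x₀ ≤ x → Small g x ∨ ∀ a : Fin d → ℝ, (∀ i, 0 < a i) → ∏ i, a i = 1 →
        ∃ E : Finset ℝ, κ * x ^ (1 / ((d : ℝ) ^ 2 - d + 1)) ≤ E.card ∧
          ∀ t ∈ E, ∃ p : Fin d → ℤ, p ≠ 0 ∧ (∀ i, |a i * (g *ᵥ iR p) i| ≤ Real.exp x) ∧
            |FF g (iR p)| = t ∧ t < T := by
  classical
  have hd0 : 0 < d := by omega
  have hT' : ∀ h : Matrix (Fin d) (Fin d) ℝ, |h.det| = V →
      ∃ m : Fin d → ℤ, m ≠ 0 ∧ |FF h (iR m)| < T := by
    rcases hT with hT | hT
    · exact fun h hh => mink_prod (by omega) V T hV hT h hh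
    · exact hT
  obtain ⟨κ₀, hκ₀, C, hC, hfew⟩ := few_values_bound (by omega : 2 ≤ d) hV hν hT'
  obtain ⟨R, hR⟩ := exists_bound hd0 V ν hV hν
  set R1 : ℝ := max R 1 with hR1
  have hR11 : 1 ≤ R1 := le_max_right _ _
  set G₀ : ℝ := V⁻¹ * (d.factorial * R1 ^ d) with hG₀
  have hG₀0 : 0 ≤ G₀ := by positivity
  set M₁ : ℝ := C * (1 + G₀) ^ 2 with hM₁
  have hM₁0 : 0 ≤ M₁ := by positivity
  set e : ℕ := d * (d - 1) / 2 with he
  set θ : ℝ := 1 / (e + 1 + 1) with hθ
  have hθ0 : 0 < θ := by positivity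
  have hθ1 : θ ≤ 1 / 2 := by
    rw [hθ]
    apply one_div_le_one_div_of_le (by norm_num)
    have : (0 : ℝ) ≤ e := Nat.cast_nonneg e
    linarith
  have hθe : θ * e ≤ 1 := by
    rw [hθ, one_div, inv_mul_le_iff₀ (by positivity)]
    linarith
  set Q : ℝ := M₁ + 1 + 3 + 3 ^ e / V + d * R1 + 2 with hQ
  have h3V : 0 ≤ (3 : ℝ) ^ e / V := by positivity
  have hdR : 0 ≤ (d : ℝ) * R1 := by positivity
  have hQ1 : 1 ≤ Q := by linarith
  set D : ℕ := d ^ 2 - d + 1 with hD
  have hDR : (D : ℝ) = (d : ℝ) ^ 2 - d + 1 := by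
    have h1 : d ≤ d ^ 2 := by nlinarith
    rw [hD]
    push_cast [Nat.cast_sub h1]
    ring
  have hD0 : (D : ℝ) ≠ 0 := by
    have : 0 < D := by omega
    exact_mod_cast this.ne'
  refine ⟨(κ₀ * θ / 2) ^ (1 / (D : ℝ)) / 2, by positivity, 2 / θ * Real.log Q, ?_⟩
  intro g hgV hnu x hx
  have hg : g.det ≠ 0 := by
    intro h0
    rw [h0, abs_zero] at hgV
    exact hV.ne hgV
  have hlogQ : 0 ≤ Real.log Q := Real.log_nonneg hQ1
  have hx0 : 0 ≤ x := le_trans (by positivity) hx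
  have hQx : Q ≤ Real.exp (θ * x / 2) := by
    rw [← Real.exp_log (by linarith : 0 < Q), Real.exp_le_exp]
    have h1 : θ / 2 * (2 / θ * Real.log Q) ≤ θ / 2 * x :=
      mul_le_mul_of_nonneg_left hx (by positivity)
    have h2 : θ / 2 * (2 / θ * Real.log Q) = Real.log Q := by field_simp
    linarith
  have hQx2 : Q ≤ Real.exp (x / 2) := hQx.trans (Real.exp_le_exp.2 (by nlinarith))
  set N : ℕ := ⌊Real.exp (θ * x)⌋₊ with hN
  have hN1 : (N : ℝ) ≤ Real.exp (θ * x) := Nat.floor_le (Real.exp_pos _).le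
  have hN2 : Real.exp (θ * x) < N + 1 := Nat.lt_floor_add_one _
  have hsq : Real.exp (θ * x) = Real.exp (θ * x / 2) * Real.exp (θ * x / 2) := by
    rw [← Real.exp_add]; congr 1; ring
  have hN3 : Real.exp (θ * x / 2) ≤ N := by
    have h1 : Real.exp (θ * x / 2) * 2 ≤ Real.exp (θ * x / 2) * Real.exp (θ * x / 2) :=
      mul_le_mul_of_nonneg_left (by linarith) (Real.exp_pos _).le
    linarith
  have hNM : C * (1 + G₀) ^ 2 ≤ N := by
    rw [← hM₁]
    linarith
  have hN0 : (0 : ℝ) < N := (Real.exp_pos _).trans_le hN3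
  have hlogN : θ * x / 2 ≤ Real.log N := by
    rw [Real.le_log_iff_exp_le hN0]
    exact hN3
  have hsqrt : Real.sqrt N ≤ Real.exp (θ * x / 2) := by
    rw [Real.sqrt_le_left (Real.exp_pos _).le, sq, ← hsq]
    exact hN1
  have hsqrt0 : 0 < Real.sqrt N := Real.sqrt_pos.2 hN0
  have hexpx : Real.exp x = Real.exp (x / 2) * Real.exp (x / 2) := by
    rw [← Real.exp_add]; congr 1; ring
  have h3x : 3 * Real.sqrt N ≤ Real.exp x := by
    rw [hexpx]
    refine mul_le_mul (by linarith) (hsqrt.trans (Real.exp_le_exp.2 (by nlinarith)))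
      (Real.sqrt_nonneg _) (Real.exp_pos _).le
  have hVe : (3 * Real.sqrt N) ^ e ≤ V * Real.exp x := by
    rw [mul_pow, hexpx]
    have h1 : Real.sqrt N ^ e ≤ Real.exp (x / 2) := by
      calc Real.sqrt N ^ e ≤ Real.exp (θ * x / 2) ^ e :=
            pow_le_pow_left₀ (Real.sqrt_nonneg _) hsqrt _
        _ = Real.exp (e * (θ * x / 2)) := (Real.exp_nat_mul _ _).symm
        _ ≤ Real.exp (x / 2) := by
            rw [Real.exp_le_exp]
            nlinarith
    have h2 : (3 : ℝ) ^ e ≤ V * Real.exp (x / 2) := by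
      have h3 : (3 : ℝ) ^ e / V ≤ Real.exp (x / 2) := by linarith
      rw [div_le_iff₀ hV] at h3
      linarith
    calc (3 : ℝ) ^ e * Real.sqrt N ^ e ≤ (V * Real.exp (x / 2)) * Real.exp (x / 2) :=
          mul_le_mul h2 h1 (by positivity) (by positivity)
      _ = _ := by ring
  by_contra hcon
  rw [not_or] at hcon
  obtain ⟨hsmall, hcon⟩ := hcon
  push Not at hcon
  obtain ⟨a, ha0, ha1, hE⟩ := hcon
  -- reduction
  have hag : |(diagonal a * g).det| = V := by
    rw [Matrix.det_mul, Matrix.det_diagonal, ha1, one_mul]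
    exact hgV
  have hagnu : HasNu (diagonal a * g) ν := fun m hm => by
    rw [FF_diag_mul, ha1, one_mul]
    exact hnu m hm
  obtain ⟨γ, hγ, hγR⟩ := hR _ hag hagnu
  set g' : Matrix (Fin d) (Fin d) ℝ := diagonal a * g * zR γ with hg'
  have horb : g' ∈ Orb g := ⟨a, γ, ha0, ha1, hγ, rfl⟩
  have hg'V : |g'.det| = V := (abs_det_orb horb).trans hgV
  have hg'nu : HasNu g' ν := hasNu_orb hnu horb
  have hg'inv : ∀ i j, |g'⁻¹ i j| ≤ G₀ := by
    intro i j
    have h1 := Pool.Agent.N759.NV.inv_bound g' hγR i j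
    rw [hg'V] at h1
    exact h1
  have hlt : ¬ ((VN g' T N).ncard : ℝ) ^ (d ^ 2 - d + 1) < κ₀ * Real.log N := by
    intro hlt
    apply hsmall
    obtain ⟨δ, c, hc, hrel, hδu, hcpos, hc1, hc2⟩ := hfew g' hg'V hg'nu G₀ hg'inv N hNM hlt
    have hrel' : g * zR (γ * δ * γ⁻¹) = diagonal c * g := by
      have h1 : diagonal (fun i => (a i)⁻¹) * diagonal a = (1 : Matrix (Fin d) (Fin d) ℝ) := by
        rw [diagonal_mul_diagonal, ← diagonal_one]
        congr 1
        funext i
        exact inv_mul_cancel₀ (ha0 i).ne'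
      have h2 : g = diagonal (fun i => (a i)⁻¹) * g' * zR γ⁻¹ := by
        rw [hg', Matrix.mul_assoc, Matrix.mul_assoc (diagonal a * g), zR_inv hγ, Matrix.mul_one,
          ← Matrix.mul_assoc, h1, Matrix.one_mul]
      calc g * zR (γ * δ * γ⁻¹)
          = diagonal (fun i => (a i)⁻¹) * g' * (zR γ⁻¹ * zR γ) * zR δ * zR γ⁻¹ := by
            conv_lhs => rw [h2]
            rw [zR_mul, zR_mul]
            simp only [Matrix.mul_assoc]
        _ = diagonal (fun i => (a i)⁻¹) * (g' * zR δ) * zR γ⁻¹ := by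
            rw [zR_inv' hγ, Matrix.mul_one, Matrix.mul_assoc (diagonal fun i => (a i)⁻¹)]
        _ = diagonal c * (diagonal (fun i => (a i)⁻¹) * g' * zR γ⁻¹) := by
            rw [hrel]
            simp only [← Matrix.mul_assoc, diagonal_mul_diagonal]
            congr 3
            funext i
            ring
        _ = diagonal c * g := by rw [← h2]
    set A : Matrix (Fin d) (Fin d) ℤ := γ * δ * γ⁻¹ with hA
    have hAu : IsUnit A.det := by
      rw [hA, det_mul, det_mul]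
      refine (hγ.mul hδu).mul ?_
      rw [Matrix.det_nonsing_inv]
      exact hγ.ringInverse
    have hAdet : A.det = 1 := by
      have h1 := congrArg Matrix.det hrel'
      rw [det_mul, det_mul, det_diagonal, det_zR, mul_comm] at h1
      have h2 := mul_right_cancel₀ hg h1
      have h3 : 0 < ∏ i, c i := Finset.prod_pos fun i _ => hcpos i
      rw [← h2] at h3
      have h4 : 0 < A.det := by exact_mod_cast h3
      rcases Int.isUnit_iff.1 hAu with h5 | h5
      · exact h5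
      · omega
    have hvand : (Matrix.vandermonde c).det ≠ 0 := Matrix.det_vandermonde_ne_zero_iff.2 hc
    have hvb : |(Matrix.vandermonde c).det| ≤ (3 * Real.sqrt N) ^ e :=
      vandermonde_bound fun i => ⟨hcpos i, hc1 i⟩
    refine ⟨A, c, |g.det| / |(Matrix.vandermonde c).det|, hAdet,
      automorph_irreducible hd0 hν hnu hc hrel', hc, fun i => ⟨?_, (hc1 i).trans h3x⟩, hrel', ?_,
      fun p => ?_⟩
    · rw [Real.exp_neg, inv_le_comm₀ (Real.exp_pos _) (hcpos i)]
      exact (hc2 i).trans h3x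
    · rw [le_div_iff₀ (abs_pos.2 hvand), Real.exp_neg, inv_mul_le_iff₀ (Real.exp_pos _), hgV]
      linarith
    · have h1 := values_multiple hrel' p
      set k : ℤ := (Matrix.of fun i (s : Fin d) => ((A ^ (s : ℕ)) *ᵥ p) i : Matrix _ _ ℤ).det with hk
      have h2 : FF g (iR p) = g.det / (Matrix.vandermonde c).det * k := by
        rw [div_mul_eq_mul_div, eq_div_iff hvand]
        exact h1
      rw [h2, ← abs_div]
      rcases abs_choice (g.det / (Matrix.vandermonde c).det) with h3 | h3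
      · exact ⟨k, by rw [h3]⟩
      · exact ⟨-k, by rw [h3]; push_cast; ring⟩
  push Not at hlt
  -- many values
  set VF : Finset ℝ := (finite_VN g' T N).toFinset with hVF
  have hVcard : VF.card = (VN g' T N).ncard := by
    rw [hVF, Set.ncard_eq_toFinset_card _ (finite_VN g' T N)]
  set E : Finset ℝ := VF.image fun t => |t| with hEdef
  have hcard : VF.card ≤ 2 * E.card := by
    have h1 : VF ⊆ E ∪ E.image fun t => -t := by
      intro t ht
      rw [Finset.mem_union]
      have h2 : |t| ∈ E := Finset.mem_image_of_mem _ ht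
      rcases abs_choice t with h3 | h3
      · left; rwa [h3] at h2
      · right
        refine Finset.mem_image.2 ⟨|t|, h2, ?_⟩
        rw [h3, neg_neg]
    refine (Finset.card_le_card h1).trans ((Finset.card_union_le _ _).trans ?_)
    have h2 := Finset.card_image_le (s := E) (f := fun t => -t)
    omega
  obtain ⟨t, htE, ht⟩ := hE E (by
    have h1 : κ₀ * θ / 2 * x ≤ ((VF.card : ℕ) : ℝ) ^ D := by
      rw [hVcard]
      refine le_trans ?_ hlt
      have := mul_le_mul_of_nonneg_left hlogN hκ₀.le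
      linarith
    have h2 : (κ₀ * θ / 2 * x) ^ (1 / (D : ℝ)) ≤ (VF.card : ℝ) := by
      calc (κ₀ * θ / 2 * x) ^ (1 / (D : ℝ)) ≤ (((VF.card : ℕ) : ℝ) ^ D) ^ (1 / (D : ℝ)) :=
            Real.rpow_le_rpow (by positivity) h1 (by positivity)
        _ = VF.card := by
            rw [← Real.rpow_natCast, ← Real.rpow_mul (Nat.cast_nonneg _), mul_one_div, div_self hD0,
              Real.rpow_one]
    rw [Real.mul_rpow (by positivity) hx0] at h2
    rw [← hDR]
    have h3 : ((VF.card : ℕ) : ℝ) ≤ 2 * E.card := by exact_mod_cast hcard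
    linarith)
  obtain ⟨s, hs, rfl⟩ := Finset.mem_image.1 htE
  rw [hVF, Set.Finite.mem_toFinset] at hs
  obtain ⟨p, hp, hpN, hps, hsT⟩ := hs
  have hFp : FF g (iR (γ *ᵥ p)) = s := by
    rw [← hps, hg', FF_orb ha1]
  refine absurd hsT (not_lt.2 (ht (γ *ᵥ p) ?_ ?_ (by rw [hFp])))
  · intro h0
    apply hp
    have h3 : (γ)⁻¹ *ᵥ (γ *ᵥ p) = 0 := by rw [h0, mulVec_zero]
    rwa [mulVec_mulVec, Matrix.nonsing_inv_mul _ hγ, one_mulVec] at h3
  · intro i
    have h1 : a i * (g *ᵥ iR (γ *ᵥ p)) i = (g' *ᵥ iR p) i := by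
      rw [hg', ← mulVec_mulVec, zR_mulVec_iR, ← mulVec_mulVec, mulVec_diagonal]
    rw [h1, mulVec, dotProduct]
    refine (Finset.abs_sum_le_sum_abs _ _).trans ?_
    have h2 : ∑ k, |g' i k * iR p k| ≤ ∑ _k : Fin d, R1 * N := by
      refine Finset.sum_le_sum fun k _ => ?_
      rw [abs_mul]
      refine mul_le_mul ((hγR i k).trans (le_max_left _ _)) ?_ (abs_nonneg _) (by linarith)
      have h3 : |(p k : ℝ)| ≤ N := by exact_mod_cast hpN k
      exact h3
    refine h2.trans ?_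
    rw [Finset.sum_const, Finset.card_univ, Fintype.card_fin, nsmul_eq_mul, ← mul_assoc, hexpx]
    refine mul_le_mul (by linarith) (hN1.trans (Real.exp_le_exp.2 (by nlinarith)))
      (Nat.cast_nonneg _) (Real.exp_pos _).le

end Pool.Agent.N759.UC
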