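import Mathlib
import Pool.Agent.N759.UC.Main

/-! # Finiteness from sequences -/

open Filter Topology Matrix Polynomial

namespace Pool.Agent.N759.UC

open H715R2

variable {d : ℕ}

/-- If every sequence of bad systems with increasing quality has two equivalent members, and members
proportional to an integral form, then the systems which are bad at a suitable quality belong to
finitely many classes. -/
theorem finite_classes (d : ℕ) (δ ν : ℝ) (Bad : Matrix (Fin d) (Fin d) ℝ → ℕ → Prop)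
    (hseq : ∀ (g : ℕ → Matrix (Fin d) (Fin d) ℝ) (N : ℕ → ℕ), (∀ i, i ≤ N i) →
      (∀ i, |(g i).det| = δ) → (∀ i, HasNu (g i) ν) → (∀ i, Bad (g i) (N i)) →
      ∃ s : ℕ → ℕ, (∀ i, i ≤ s i) ∧ (∀ i, PropInt (g (s i))) ∧
        ∀ i j, Eqv (g (s i)) (g (s j))) :
    ∃ (M : ℕ) (S : Set (Matrix (Fin d) (Fin d) ℝ)), S.Finite ∧
      (∀ g ∈ S, |g.det| = δ ∧ HasNu g ν ∧ PropInt g) ∧
      ∀ g, |g.det| = δ → HasNu g ν → Bad g M → PropInt g ∧ ∃ g' ∈ S, Eqv g g' := by
  classical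
  by_contra hcon
  push Not at hcon
  obtain ⟨f, hf, hfr⟩ := exists_seq_of_forall_finset_exists
    (fun x : Matrix (Fin d) (Fin d) ℝ × ℕ => (|x.1.det| = δ ∧ HasNu x.1 ν) ∧ Bad x.1 x.2)
    (fun x y => x.2 < y.2 ∧ ¬ (PropInt y.1 ∧ PropInt x.1 ∧ Eqv y.1 x.1))
    (fun s hs => by
      obtain ⟨L, hL1, hL2, hbad, hne⟩ := hcon ((s.sup Prod.snd) + 1)
        ((s.filter fun x => PropInt x.1).image Prod.fst : Finset _) (Finset.finite_toSet _)
        (fun L hL => by
          simp only [Finset.coe_image, Set.mem_image, Finset.mem_coe, Finset.mem_filter] at hL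
          obtain ⟨x, ⟨hx, hxM⟩, rfl⟩ := hL
          exact ⟨(hs x hx).1.1, (hs x hx).1.2, hxM⟩)
      refine ⟨(L, s.sup Prod.snd + 1), ⟨⟨hL1, hL2⟩, hbad⟩, fun x hx => ⟨?_, ?_⟩⟩
      · exact Nat.lt_succ_of_le (Finset.le_sup (f := Prod.snd) hx)
      · rintro ⟨h1, h2, h3⟩
        refine hne h1 x.1 ?_ h3
        simp only [Finset.coe_image, Set.mem_image, Finset.mem_coe, Finset.mem_filter]
        exact ⟨x, ⟨hx, h2⟩, rfl⟩)
  have hfM : ∀ i, i ≤ (f i).2 := by
    have hmono : StrictMono fun i => (f i).2 := fun i j hij => (hfr i j hij).1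
    exact hmono.id_le
  obtain ⟨s, hs, hP, hE⟩ := hseq (fun i => (f i).1) (fun i => (f i).2) hfM
    (fun i => (hf i).1.1) (fun i => (hf i).1.2) (fun i => (hf i).2)
  have hlt : s 0 < s (s 0 + 1) := lt_of_lt_of_le (Nat.lt_succ_self _) (hs (s 0 + 1))
  exact (hfr _ _ hlt).2 ⟨hP _, hP _, hE _ _⟩

end Pool.Agent.N759.UC
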