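import Mathlib
import Pool.Agent.N759.UC.Values
import Pool.Agent.Y906.GF3

/-! # Return-free boxes on all long paths, for sequences of products of three linear forms -/

open Matrix Polynomial H715R2 Filter Topology

namespace Pool.Agent.N759.UC

open Pool.Agent.Y906 Pool.Agent.Y906.GF

/-- **The core of the proof, for a sequence of matrices.** -/
theorem core_seq {g : ℕ → Matrix (Fin 3) (Fin 3) ℝ} (hg : ∀ j, |(g j).det| = 1) {ν ε δ T R : ℝ}
    (hν : 0 < ν) (hεν : ε ≤ ν) (hnu : ∀ j, HasNu (g j) ν) (hT : 0 ≤ T) (h0 : 0 ≤ δ)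
    (hδ : δ ≤ 1 / 100) (hR : 0 ≤ R)
    (hred : ∀ h : Matrix (Fin 3) (Fin 3) ℝ, |h.det| = 1 → HasNu h ν →
      ∃ σ : Matrix (Fin 3) (Fin 3) ℤ, IsUnit σ.det ∧ ∀ i j, |(h * zR σ) i j| ≤ R)
    (hX2 : (36 * δ * Real.exp (6 * T + 8) * R) ^ 3 < ε)
    (s t : ℕ → ℕ → ℝ) (N : ℕ → ℕ)
    (hstep : ∀ j k, k < N j → |s j (k + 1) - s j k| ≤ 1 ∧ |t j (k + 1) - t j k| ≤ 1)
    (hfar : ∀ j : ℕ, (j : ℝ) ≤ max |s j (N j) - s j 0| |t j (N j) - t j 0|)
    (hret : ∀ j k, k ≤ N j → ∃ x y x' y' : ℝ, (s j k ≤ x ∧ x ≤ s j k + T) ∧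
      (t j k ≤ y ∧ y ≤ t j k + T) ∧ (s j k ≤ x' ∧ x' ≤ s j k + T) ∧
      (t j k ≤ y' ∧ y' ≤ t j k + T) ∧ (1 ≤ |x - x'| ∨ 1 ≤ |y - y'|) ∧
      Nr δ (Lt (g j) x y) (Lt (g j) x' y')) :
    ∃ (φ : ℕ → ℕ) (x : ℕ → Matrix (Fin 3) (Fin 3) ℝ) (h₀ : Matrix (Fin 3) (Fin 3) ℝ),
      (∀ i, i ≤ φ i) ∧ (∀ i, x i ∈ Orb (g (φ i))) ∧ Tendsto x atTop (𝓝 h₀) ∧ |h₀.det| = 1 ∧
      HasNu h₀ ν ∧ PropInt h₀ := by
  have hδ1 : δ ≤ 1 := hδ.trans (by norm_num)
  have hnuL : ∀ j x y, HasNu (Lt (g j) x y) ν := fun j x y m hm => by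
    rw [FF_Lt]; exact hnu j m hm
  -- the near returns
  have hpair : ∀ j k, k ≤ N j → ∃ G : Matrix (Fin 3) (Fin 3) ℤ, G.det = 1 ∧ 4 ≤ G.trace ∧
      ∀ s' t', |s j k - s'| ≤ 1 → |t j k - t'| ≤ 1 → RD (g j) δ T s' t' G := by
    intro j k hk
    obtain ⟨x, y, x', y', hx, hy, hx', hy', hne, hnr⟩ := hret j k hk
    obtain ⟨G, u, hdet, htr, hrel, hoff, hdiag⟩ := ret_of_near (hg j) h0 hδ hnr hne
    refine ⟨G, hdet, htr, fun s' t' hs' ht' => ?_⟩
    rw [abs_le] at hs' ht'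
    refine ⟨u, x, y, x', y', ⟨?_, ?_, ?_, ?_⟩, ⟨?_, ?_, ?_, ?_⟩, hrel, hoff, hdiag⟩ <;>
      linarith [hs'.1, hs'.2, ht'.1, ht'.2, hx.1, hx.2, hy.1, hy.2, hx'.1, hx'.2, hy'.1, hy'.2]
  choose! G hGdet hGtr hGRD using hpair
  have hself : ∀ j k, k ≤ N j → RD (g j) δ T (s j k) (t j k) (G j k) := fun j k hk =>
    hGRD j k hk _ _ (by simp) (by simp)
  have hcomm1 : ∀ j k, k < N j → G j k * G j (k + 1) = G j (k + 1) * G j k := by
    intro j k hk
    refine comm_of_RD hT h0 hδ1 hR (hred _ (det_Lt (hg j) (s j k) (t j k)) (hnuL _ _ _))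
      (fun m hm => hεν.trans (hnuL _ _ _ m hm)) hX2 (hself j k hk.le) ?_
    have h1 := hstep j k hk
    exact hGRD j (k + 1) hk _ _ h1.1 h1.2
  have hcomm : ∀ j k, k ≤ N j → G j k * G j 0 = G j 0 * G j k := by
    intro j k
    induction k with
    | zero => intro _; rfl
    | succ k ih =>
      intro hk
      exact (comm_of_comm (hGdet j k (by omega)) (hGtr j k (by omega)) (ih (by omega)).symm
        (hcomm1 j k (by omega)).symm).symm
  set E : ℝ := 2 * Real.exp (3 * T + 4) with hE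
  have hE0 : 0 ≤ E := by positivity
  -- reduced bases at the starting points
  choose σ hσ hσR using fun j => hred _ (det_Lt (hg j) (s j 0) (t j 0)) (hnuL j (s j 0) (t j 0))
  set h : ℕ → Matrix (Fin 3) (Fin 3) ℝ := fun j => Lt (g j) (s j 0) (t j 0) * zR (σ j) with hh
  set H : ℕ → ℕ → Matrix (Fin 3) (Fin 3) ℤ := fun j k => (σ j)⁻¹ * G j k * σ j with hH
  have hdeth : ∀ j, |(h j).det| = 1 := fun j => det_red (hg j) _ _ (hσ j)
  have hHFB : ∀ j k, k ≤ N j → FB E (h j) (s j k - s j 0) (t j k - t j 0) (H j k) := by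
    intro j k hk
    exact FB.shift (hg j) ((hself j k hk).fb (hg j) hT hδ1) (hσ j)
  have hHdet : ∀ j k, k ≤ N j → (H j k).det = 1 := by
    intro j k hk
    simp only [hH]
    rw [det_mul, det_mul, hGdet j k hk, mul_one, ← det_mul, Matrix.nonsing_inv_mul _ (hσ _),
      det_one]
  have hHtr : ∀ j k, k ≤ N j → 4 ≤ (H j k).trace := by
    intro j k hk
    simp only [hH]
    rw [Matrix.trace_mul_comm, ← Matrix.mul_assoc, Matrix.mul_nonsing_inv _ (hσ _),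
      Matrix.one_mul]
    exact hGtr j k hk
  have hHcomm : ∀ j k, k ≤ N j → H j k * H j 0 = H j 0 * H j k := by
    intro j k hk
    simp only [hH]
    have e : ∀ A B : Matrix (Fin 3) (Fin 3) ℤ, (σ j)⁻¹ * A * σ j * ((σ j)⁻¹ * B * σ j) =
        (σ j)⁻¹ * (A * B) * σ j := by
      intro A B
      rw [Matrix.mul_assoc ((σ j)⁻¹ * A), ← Matrix.mul_assoc (σ j), ← Matrix.mul_assoc (σ j),
        Matrix.mul_nonsing_inv _ (hσ j), Matrix.one_mul]
      simp only [Matrix.mul_assoc]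
    rw [e, e, hcomm j k hk]
  obtain ⟨U, hU⟩ : ∃ U : Ultrafilter ℕ, (U : Filter ℕ) ≤ atTop := ⟨Ultrafilter.of atTop,
    Ultrafilter.of_le _⟩
  obtain ⟨H₁, hH₁⟩ : ∃ H₁, ∀ᶠ j in (U : Filter ℕ), H j 0 = H₁ := by
    have hfin := finite_bounded ⌈6 * R ^ 2 * (3 * E * R)⌉
    have h1 : ∀ᶠ j in (U : Filter ℕ), ∃ H' ∈ {M : Matrix (Fin 3) (Fin 3) ℤ |
        ∀ i j, |M i j| ≤ ⌈6 * R ^ 2 * (3 * E * R)⌉}, H j 0 = H' := by
      refine Eventually.of_forall fun j => ⟨_, ?_, rfl⟩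
      exact (FB.conj (hg j) ((hself j 0 (Nat.zero_le _)).fb (hg j) hT hδ1) (hσ j) (hσR j) hE0).2
    obtain ⟨H₀, -, h2⟩ := (Ultrafilter.eventually_exists_mem_iff hfin).1 h1
    exact ⟨H₀, h2⟩
  obtain ⟨j₀, hj₀⟩ := hH₁.exists
  obtain ⟨b, hb⟩ := bound_comm H₁ (by rw [← hj₀]; exact hHdet _ _ (Nat.zero_le _))
    (by rw [← hj₀]; exact hHtr _ _ (Nat.zero_le _)) (3 * E)
  have hHb : ∀ᶠ j in (U : Filter ℕ), ∀ k ≤ N j, ∀ i l, |H j k i l| ≤ b := by
    filter_upwards [hH₁] with j hj k hk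
    refine hb (H j k) ?_ (fun μ v hv hv' => FB.eig (hdeth j) hE0 (hHFB j k hk) μ v hv hv')
    rw [← hj]
    exact hHcomm j k hk
  -- the limit of the starting points
  obtain ⟨h₀, -, hlim⟩ : ∃ h₀ ∈ {M : Matrix (Fin 3) (Fin 3) ℝ | ∀ i j, |M i j| ≤ R},
      Tendsto h U (𝓝 h₀) := by
    have h1 : (↑(U.map h) : Filter (Matrix (Fin 3) (Fin 3) ℝ)) ≤
        𝓟 {M : Matrix (Fin 3) (Fin 3) ℝ | ∀ i j, |M i j| ≤ R} := by
      rw [le_principal_iff, Ultrafilter.mem_coe, Ultrafilter.mem_map]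
      exact Filter.univ_mem' fun n => hσR n
    exact (isCompact_box (d := 3) R).ultrafilter_le_nhds _ h1
  have horb : ∀ j, h j ∈ Orb (g j) := by
    intro j
    refine orb_mul (mem_orb_self (g j)) (fun i => Real.exp_pos _) ?_ (hσ j)
    rw [Fin.prod_univ_three, ← Real.exp_add, ← Real.exp_add, ← Real.exp_zero]
    congr 1
    simp
  have hdet₀ : |h₀.det| = 1 := by
    have h1 := ((continuous_det'.tendsto h₀).comp hlim).abs
    refine (tendsto_nhds_unique (h1.congr fun n => ?_) tendsto_const_nhds)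
    exact hdeth n
  have hdet₀' : h₀.det ≠ 0 := isUnit_iff_ne_zero.1 (unit_of hdet₀)
  have hnu₀ : HasNu h₀ ν := by
    intro m hm
    have h1 := (((continuous_FF (iR m)).tendsto h₀).comp hlim).abs
    exact ge_of_tendsto h1 (Eventually.of_forall fun n => hasNu_orb (hnu n) (horb n) m hm)
  -- a subsequence
  obtain ⟨b', hb'⟩ := (𝓝 h₀).exists_antitone_basis
  have hsub : ∀ i : ℕ, ∃ j, i ≤ j ∧ h j ∈ b' i := by
    intro i
    have h1 : ∀ᶠ j in (U : Filter ℕ), h j ∈ b' i := hlim.eventually (hb'.1.mem_of_mem trivial)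
    have h2 : ∀ᶠ j in (U : Filter ℕ), i ≤ j := hU (eventually_ge_atTop i)
    obtain ⟨j, h3, h4⟩ := (h1.and h2).exists
    exact ⟨j, h4, h3⟩
  choose φ₀ hφ₀ hφ₀b using hsub
  refine ⟨φ₀, fun i => h (φ₀ i), h₀, hφ₀, fun i => horb _, hb'.tendsto hφ₀b, hdet₀, hnu₀, ?_⟩
  by_contra hP
  -- for each radius a return of the limit
  have hrad : ∀ r : ℕ, ∃ (x y : ℝ) (H' : Matrix (Fin 3) (Fin 3) ℤ), (r : ℝ) ≤ max |x| |y| ∧
      (∀ i l, |H' i l| ≤ b) ∧ H'.det = 1 ∧ 4 ≤ H'.trace ∧ FB E h₀ x y H' := by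
    intro r
    have hex : ∀ᶠ j in (U : Filter ℕ), ∃ k ≤ N j,
        (r : ℝ) ≤ max |s j k - s j 0| |t j k - t j 0| ∧
        max |s j k - s j 0| |t j k - t j 0| ≤ r + 1 := by
      have h1 : ∀ᶠ j in (U : Filter ℕ), r ≤ j := hU (eventually_ge_atTop r)
      filter_upwards [h1] with j hj
      refine exit (f := fun k => max |s j k - s j 0| |t j k - t j 0|) (N := N j) ?_ ?_
        (Nat.cast_nonneg r) ?_
      · simp
      · intro k hk
        obtain ⟨h2, h3⟩ := hstep j k hk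
        have e1 : |s j (k + 1) - s j 0| ≤ |s j k - s j 0| + 1 := by
          have := abs_sub_le (s j (k + 1)) (s j k) (s j 0)
          linarith
        have e2 : |t j (k + 1) - t j 0| ≤ |t j k - t j 0| + 1 := by
          have := abs_sub_le (t j (k + 1)) (t j k) (t j 0)
          linarith
        refine max_le (e1.trans ?_) (e2.trans ?_)
        · linarith [le_max_left |s j k - s j 0| |t j k - t j 0|]
        · linarith [le_max_right |s j k - s j 0| |t j k - t j 0|]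
      · have h2 : (r : ℝ) ≤ j := by exact_mod_cast hj
        exact h2.trans (hfar j)
    have hex' : ∀ᶠ j in (U : Filter ℕ), ∃ (x y : ℝ) (H' : Matrix (Fin 3) (Fin 3) ℤ),
        (r : ℝ) ≤ max |x| |y| ∧ max |x| |y| ≤ r + 1 ∧
        (∀ i l, |H' i l| ≤ b) ∧ H'.det = 1 ∧ 4 ≤ H'.trace ∧ FB E (h j) x y H' := by
      filter_upwards [hex, hHb] with j hj1 hj2
      obtain ⟨k, hk, h1, h2⟩ := hj1
      exact ⟨_, _, H j k, h1, h2, hj2 k hk, hHdet j k hk, hHtr j k hk, hHFB j k hk⟩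
    obtain ⟨x, hx⟩ := hex'.choice
    obtain ⟨y, hy⟩ := hx.choice
    obtain ⟨H', hH'⟩ := hy.choice
    obtain ⟨H'', hH''⟩ : ∃ H'', ∀ᶠ j in (U : Filter ℕ), H' j = H'' := by
      have h1 : ∀ᶠ j in (U : Filter ℕ), ∃ M ∈ {M : Matrix (Fin 3) (Fin 3) ℤ |
          ∀ i j, |M i j| ≤ b}, H' j = M := by
        filter_upwards [hH'] with j hj
        exact ⟨_, hj.2.2.1, rfl⟩
      obtain ⟨H₀, -, h2⟩ := (Ultrafilter.eventually_exists_mem_iff (finite_bounded b)).1 h1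
      exact ⟨H₀, h2⟩
    have hcpt : IsCompact (Set.Icc (-((r : ℝ) + 1)) ((r : ℝ) + 1)) := isCompact_Icc
    obtain ⟨x₀, -, hx₀⟩ : ∃ x₀ ∈ Set.Icc (-((r : ℝ) + 1)) ((r : ℝ) + 1),
        Tendsto x U (𝓝 x₀) := by
      refine hcpt.ultrafilter_le_nhds (U.map x) ?_
      rw [le_principal_iff, Ultrafilter.mem_coe, Ultrafilter.mem_map]
      filter_upwards [hH'] with j hj
      exact abs_le.1 ((le_max_left _ _).trans hj.2.1)
    obtain ⟨y₀, -, hy₀⟩ : ∃ y₀ ∈ Set.Icc (-((r : ℝ) + 1)) ((r : ℝ) + 1),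
        Tendsto y U (𝓝 y₀) := by
      refine hcpt.ultrafilter_le_nhds (U.map y) ?_
      rw [le_principal_iff, Ultrafilter.mem_coe, Ultrafilter.mem_map]
      filter_upwards [hH'] with j hj
      exact abs_le.1 ((le_max_right _ _).trans hj.2.1)
    obtain ⟨j₁, hj₁, hj₂⟩ := (hH'.and hH'').exists
    rw [hj₂] at hj₁
    refine ⟨x₀, y₀, H'', ?_, hj₁.2.2.1, hj₁.2.2.2.1, hj₁.2.2.2.2.1, ?_⟩
    · refine ge_of_tendsto (hx₀.abs.max hy₀.abs) ?_
      filter_upwards [hH'] with j hj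
      exact hj.1
    · refine FB.closed hlim hdet₀' hx₀ hy₀ ?_
      filter_upwards [hH', hH''] with j hj hj'
      rw [← hj']
      exact hj.2.2.2.2.2
  choose x y H' hr hHb' hHdet' hHtr' hFB using hrad
  obtain ⟨G₀, hfreq⟩ : ∃ G₀, ∃ᶠ n in atTop, H' n = G₀ := by
    by_contra hcon'
    push Not at hcon'
    have h2 := (Filter.eventually_all_finite (finite_bounded b)).2
      (fun (M : Matrix (Fin 3) (Fin 3) ℤ) _ => hcon' M)
    obtain ⟨n, hn⟩ := h2.exists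
    exact hn (H' n) (hHb' n) rfl
  obtain ⟨φ, hφ, hφG⟩ := extraction_of_frequently_atTop hfreq
  refine no_repeat hdet₀ hν hE0 hnu₀ hP (subset_closure (mem_orb_self h₀))
    (fun x y => hred _ (det_Lt hdet₀ x y) (fun m hm => by
    rw [FF_Lt]; exact hnu₀ m hm)) (G := G₀) (by rw [← hφG 0]; exact hHdet' _)
    (by rw [← hφG 0]; exact hHtr' _) (fun n => x (φ n)) (fun n => y (φ n)) ?_
    (fun n => by rw [← hφG n]; exact hFB _)
  refine tendsto_atTop_mono (fun n => hr (φ n)) ?_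
  exact tendsto_natCast_atTop_atTop.comp hφ.tendsto_atTop

/-- a long path along which all boxes of side `T` have a `δ`-near return -/
def BadPath (δ T : ℝ) (g : Matrix (Fin 3) (Fin 3) ℝ) (D : ℕ) : Prop :=
  ∃ (s t : ℕ → ℝ) (n : ℕ), (∀ k, k < n → |s (k + 1) - s k| ≤ 1 ∧ |t (k + 1) - t k| ≤ 1) ∧
    (D : ℝ) ≤ max |s n - s 0| |t n - t 0| ∧
    ∀ k, k ≤ n → ∃ x y x' y' : ℝ, (s k ≤ x ∧ x ≤ s k + T) ∧ (t k ≤ y ∧ y ≤ t k + T) ∧
      (s k ≤ x' ∧ x' ≤ s k + T) ∧ (t k ≤ y' ∧ y' ≤ t k + T) ∧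
      (1 ≤ |x - x'| ∨ 1 ≤ |y - y'|) ∧ Nr δ (Lt g x y) (Lt g x' y')

/-- **Return-free boxes on all long paths, for sequences.** -/
theorem paths_seq (ε : ℝ) (hε : 0 < ε) : ∃ κ : ℝ, 0 < κ ∧ ∀ δ : ℝ, 0 < δ → δ < 1 →
    ∀ (g : ℕ → Matrix (Fin 3) (Fin 3) ℝ) (D : ℕ → ℕ), (∀ i, i ≤ D i) →
      (∀ i, |(g i).det| = 1) → (∀ i, HasNu (g i) ε) →
      (∀ i, BadPath δ (κ * Real.log (1 / δ)) (g i) (D i)) →
      ∃ s : ℕ → ℕ, (∀ i, i ≤ s i) ∧ (∀ i, PropInt (g (s i))) ∧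
        ∀ i j, Eqv (g (s i)) (g (s j)) := by
  obtain ⟨ρ, R₀, hρ, hR₀⟩ := exists_bound_loc (d := 3) (by norm_num) 1 ε one_pos hε
  set R : ℝ := |R₀| with hRdef
  have hR0 : 0 ≤ R := abs_nonneg _
  have hR : ∀ h : Matrix (Fin 3) (Fin 3) ℝ, |h.det| = 1 → HasNu h ε →
      ∃ γ : Matrix (Fin 3) (Fin 3) ℤ, IsUnit γ.det ∧ ∀ i j, |(h * zR γ) i j| ≤ R := by
    intro h h1 h2
    obtain ⟨γ, hγ, hb⟩ := hR₀ h h1 (fun m hm _ => h2 m hm)
    exact ⟨γ, hγ, fun i j => (hb i j).trans (le_abs_self _)⟩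
  set η : ℝ := min (ε / 2) 1 with hη
  have hη0 : 0 < η := lt_min (by linarith) one_pos
  set L0 : ℝ := 2 * (8 + 36 * R / η) + 99 with hL0
  have hRη : 0 ≤ 36 * R / η := by positivity
  have hL0' : 99 ≤ L0 := by rw [hL0]; linarith
  refine ⟨min (1 / 12) (1 / (2 * L0)), lt_min (by norm_num) (by positivity), ?_⟩
  set κ : ℝ := min (1 / 12) (1 / (2 * L0)) with hκ
  have hκ0 : 0 < κ := lt_min (by norm_num) (by positivity)
  have hκ1 : κ ≤ 1 / 12 := min_le_left _ _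
  have hκ2 : κ ≤ 1 / (2 * L0) := min_le_right _ _
  intro δ hδ0 hδ1 g D hD hg hnu hbad
  set L : ℝ := Real.log (1 / δ) with hL
  have hLpos : 0 < L := Real.log_pos (by rw [lt_div_iff₀ hδ0]; linarith)
  have hδL : δ = Real.exp (-L) := by
    rw [hL, one_div, Real.log_inv, neg_neg, Real.exp_log hδ0]
  set T : ℝ := κ * L with hTdef
  have hT : 0 ≤ T := by positivity
  -- the case of large `δ`
  by_cases hLL : L < L0
  · exfalso
    obtain ⟨s, t, n, -, -, hret⟩ := hbad 0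
    obtain ⟨x, y, x', y', hx, hy, hx', hy', hne, -⟩ := hret 0 (Nat.zero_le _)
    have hT1 : T < 1 := by
      have h1 : κ * L ≤ 1 / (2 * L0) * L := mul_le_mul_of_nonneg_right hκ2 hLpos.le
      have h2 : 1 / (2 * L0) * L < 1 := by
        rw [one_div, inv_mul_lt_iff₀ (by positivity)]
        linarith
      linarith
    rcases hne with hne | hne
    · have : |x - x'| ≤ T := abs_le.2 ⟨by linarith [hx.1, hx'.2], by linarith [hx.2, hx'.1]⟩
      linarith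
    · have : |y - y'| ≤ T := abs_le.2 ⟨by linarith [hy.1, hy'.2], by linarith [hy.2, hy'.1]⟩
      linarith
  push Not at hLL
  have hδ100 : δ ≤ 1 / 100 := by
    rw [hδL, Real.exp_neg, one_div]
    refine inv_anti₀ (by norm_num) ?_
    linarith [Real.add_one_le_exp L]
  have hXη : 36 * δ * Real.exp (6 * T + 8) * R ≤ η := by
    have h1 : δ * Real.exp (6 * T + 8) ≤ Real.exp (-(36 * R / η)) := by
      rw [hδL, ← Real.exp_add]
      apply Real.exp_le_exp.2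
      have h2 : T ≤ 1 / 12 * L := mul_le_mul_of_nonneg_right hκ1 hLpos.le
      linarith
    have h2 : Real.exp (-(36 * R / η)) * (36 * R / η) ≤ 1 := by
      have h3 := Real.add_one_le_exp (36 * R / η)
      rw [Real.exp_neg, inv_mul_le_iff₀ (Real.exp_pos _)]
      linarith
    calc 36 * δ * Real.exp (6 * T + 8) * R = (δ * Real.exp (6 * T + 8)) * (36 * R) := by ring
      _ ≤ Real.exp (-(36 * R / η)) * (36 * R) :=
          mul_le_mul_of_nonneg_right h1 (by positivity)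
      _ = (Real.exp (-(36 * R / η)) * (36 * R / η)) * η := by field_simp
      _ ≤ 1 * η := mul_le_mul_of_nonneg_right h2 hη0.le
      _ = η := one_mul _
  have hX0 : 0 ≤ 36 * δ * Real.exp (6 * T + 8) * R := by positivity
  have hX2 : (36 * δ * Real.exp (6 * T + 8) * R) ^ 3 < ε := by
    have h1 : 36 * δ * Real.exp (6 * T + 8) * R ≤ 1 := hXη.trans (min_le_right _ _)
    have h2 : 36 * δ * Real.exp (6 * T + 8) * R ≤ ε / 2 := hXη.trans (min_le_left _ _)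
    have h3 := pow_le_of_le_one hX0 h1 (n := 3) (by norm_num)
    linarith
  choose s t N hstep hfar hret using hbad
  obtain ⟨φ, x, h₀, hφ, hx, hlim, hdet, hnu₀, hP⟩ := core_seq hg hε le_rfl hnu hT hδ0.le hδ100 hR0
    hR hX2 s t N hstep (fun j => by
      have h1 : (j : ℝ) ≤ D j := by exact_mod_cast hD j
      exact h1.trans (hfar j)) hret
  exact iso_of_limit one_pos hε g hg hnu φ hφ x hx hlim
    (exists_alg_of_propInt le_rfl (isUnit_iff_ne_zero.1 (unit_of hdet)) hε hnu₀ hP)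

end Pool.Agent.N759.UC
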